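import Mathlib

/-!
The formal part of the construction of the Artin polynomial.
-/

open scoped Polynomial

namespace Pool.Agent.helper90.Zp

namespace ArtinAux

open PowerSeries

variable {R : Type*} [CommRing R] (γ : R →+* R) (θ : R)

/-- the resolvent `∑_{j < N} γ^j(θ) (1 - X)^(N - 1 - j)` -/
noncomputable def Y (N : ℕ) : R⟦X⟧ :=
  ∑ j ∈ Finset.range N, C ((γ ^ j) θ) * (1 - X) ^ (N - 1 - j)

theorem constantCoeff_map' {S : Type*} [CommRing S] (f : R →+* S) (φ : R⟦X⟧) :
    constantCoeff (map f φ) = f (constantCoeff φ) := by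
  rw [← coeff_zero_eq_constantCoeff_apply, coeff_map, coeff_zero_eq_constantCoeff_apply]

theorem map_iterateFrobenius_zero {κ : Type*} [CommRing κ] (p : ℕ) [ExpChar κ p] (φ : κ⟦X⟧) :
    map (iterateFrobenius κ p 0) φ = φ := by
  ext m
  rw [coeff_map, iterateFrobenius_def, pow_zero, pow_one]

theorem map_iterateFrobenius_succ {κ : Type*} [CommRing κ] (p r : ℕ) [ExpChar κ p] (φ : κ⟦X⟧) :
    map (iterateFrobenius κ p (r + 1)) φ =
      map (iterateFrobenius κ p r) (map (frobenius κ p) φ) := by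
  ext m
  rw [coeff_map, coeff_map, coeff_map, iterateFrobenius_def, iterateFrobenius_def,
    frobenius_def, ← pow_mul, pow_succ']

theorem constantCoeff_Y (N : ℕ) :
    constantCoeff (Y γ θ N) = ∑ j ∈ Finset.range N, (γ ^ j) θ := by
  rw [Y, map_sum]
  apply Finset.sum_congr rfl
  intro j _
  simp

theorem map_Y {S : Type*} [CommRing S] (f : R →+* S) (N : ℕ) :
    map f (Y γ θ N) = ∑ j ∈ Finset.range N, C (f ((γ ^ j) θ)) * (1 - X) ^ (N - 1 - j) := by
  rw [Y, map_sum]
  apply Finset.sum_congr rfl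
  intro j _
  rw [map_mul, map_C, map_pow, map_sub, map_one, map_X]

variable (p n : ℕ) [Fact p.Prime] [CharP R p]

theorem one_sub_X_pow : ((1 : R⟦X⟧) - X) ^ p ^ n = 1 - X ^ p ^ n := by
  have : CharP R⟦X⟧ p := by
    apply charP_of_injective_ringHom (f := (C : R →+* R⟦X⟧)) PowerSeries.C_injective
  rw [sub_pow_char_pow, one_pow]

theorem map_γ_Y (hγ : (γ ^ p ^ n) θ = θ) :
    map γ (Y γ θ (p ^ n)) = (1 - X) * Y γ θ (p ^ n) + C θ * X ^ p ^ n := by
  set N := p ^ n with hN
  let S : ℕ → R⟦X⟧ := fun j => C ((γ ^ j) θ) * (1 - X) ^ (N - j)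
  have h1 : map γ (Y γ θ N) = ∑ j ∈ Finset.range N, S (j + 1) := by
    rw [map_Y]
    apply Finset.sum_congr rfl
    intro j _
    have h2 : γ ((γ ^ j) θ) = (γ ^ (j + 1)) θ := by
      rw [pow_succ' γ j]; rfl
    rw [h2]
    change _ = C ((γ ^ (j + 1)) θ) * (1 - X) ^ (N - (j + 1))
    rw [Nat.sub_sub, add_comm 1 j]
  have h3 : (1 - X) * Y γ θ N = ∑ j ∈ Finset.range N, S j := by
    rw [Y, Finset.mul_sum]
    apply Finset.sum_congr rfl
    intro j hj
    rw [Finset.mem_range] at hj
    change _ = C ((γ ^ j) θ) * (1 - X) ^ (N - j)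
    have h4 : N - j = (N - 1 - j) + 1 := by omega
    rw [h4, pow_succ]
    ring
  have h5 : ∑ j ∈ Finset.range N, S (j + 1) - ∑ j ∈ Finset.range N, S j = S N - S 0 := by
    rw [← Finset.sum_sub_distrib, Finset.sum_range_sub]
  have h6 : S N = C θ := by
    change C ((γ ^ N) θ) * (1 - X) ^ (N - N) = C θ
    rw [hγ, Nat.sub_self, pow_zero, mul_one]
  have h7 : S 0 = C θ * (1 - X ^ N) := by
    change C ((γ ^ 0) θ) * (1 - X) ^ (N - 0) = _
    rw [Nat.sub_zero, hN, one_sub_X_pow, pow_zero]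
    rfl
  rw [h6, h7] at h5
  rw [h1, h3]
  linear_combination h5

theorem dvd_map_pow_Y (hγ : (γ ^ p ^ n) θ = θ) (a : ℕ) :
    X ^ p ^ n ∣ map (γ ^ a) (Y γ θ (p ^ n)) - (1 - X) ^ a * Y γ θ (p ^ n) := by
  induction a with
  | zero =>
    have : map (γ ^ 0) (Y γ θ (p ^ n)) = Y γ θ (p ^ n) := by
      rw [pow_zero]
      ext m
      rw [coeff_map]
      rfl
    rw [this, pow_zero, one_mul, sub_self]
    exact dvd_zero _
  | succ a ih =>
    obtain ⟨c, hc⟩ := ih
    have h1 : map (γ ^ (a + 1)) (Y γ θ (p ^ n)) = map γ (map (γ ^ a) (Y γ θ (p ^ n))) := by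
      ext m
      rw [coeff_map, coeff_map, coeff_map, pow_succ']
      rfl
    have h2 : map (γ ^ a) (Y γ θ (p ^ n)) = (1 - X) ^ a * Y γ θ (p ^ n) + X ^ p ^ n * c := by
      rw [← hc]; ring
    rw [h1, h2, map_add, map_mul, map_mul, map_pow, map_pow, map_sub, map_one, map_X,
      map_γ_Y γ θ p n hγ]
    refine ⟨(1 - X) ^ a * C θ + map γ c, ?_⟩
    ring

/-- the power series `E = Frob(Y) / Y` -/
theorem exists_E (hγ : (γ ^ p ^ n) θ = θ) (hθ : ∑ j ∈ Finset.range (p ^ n), (γ ^ j) θ = 1) :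
    ∃ E : R⟦X⟧, E * Y γ θ (p ^ n) = map (frobenius R p) (Y γ θ (p ^ n)) ∧
      constantCoeff E = 1 ∧ ∀ m < p ^ n, γ (coeff m E) = coeff m E := by
  set N := p ^ n with hN
  set y := Y γ θ N with hy
  have hy1 : constantCoeff y = 1 := by rw [hy, constantCoeff_Y, hθ]
  have hyu : y * invOfUnit y 1 = 1 := mul_invOfUnit y 1 (by rw [hy1]; rfl)
  set z := invOfUnit y 1 with hz
  have hz1 : constantCoeff z = 1 := by
    have := congrArg (constantCoeff (R := R)) hyu
    rwa [map_mul, hy1, one_mul, map_one] at this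
  have hfrob1 : constantCoeff (map (frobenius R p) y) = 1 := by
    rw [constantCoeff_map', hy1, map_one]
  refine ⟨map (frobenius R p) y * z, ?_, ?_, ?_⟩
  · rw [mul_assoc, mul_comm z y, hyu, mul_one]
  · rw [map_mul, hfrob1, hz1, one_mul]
  · set E := map (frobenius R p) y * z with hE
    have hEy : E * y = map (frobenius R p) y := by
      rw [hE, mul_assoc, mul_comm z y, hyu, mul_one]
    have hγy : map γ y = (1 - X) * y + C θ * X ^ N := map_γ_Y γ θ p n hγ
    have hcomm : map γ (map (frobenius R p) y) = map (frobenius R p) (map γ y) := by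
      ext m
      rw [coeff_map, coeff_map, coeff_map, coeff_map, frobenius_def, frobenius_def, map_pow]
    have hfγ : map (frobenius R p) (map γ y) =
        (1 - X) * map (frobenius R p) y + C (θ ^ p) * X ^ N := by
      rw [hγy, map_add, map_mul, map_mul, map_pow, map_sub, map_one, map_X, map_C, frobenius_def]
    have hEγ : map γ E * map γ y = (1 - X) * map (frobenius R p) y + C (θ ^ p) * X ^ N := by
      rw [← map_mul, hEy, hcomm, hfγ]
    have hunit : IsUnit (map γ y * y) := by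
      rw [isUnit_iff_constantCoeff, map_mul, constantCoeff_map', hy1, map_one, one_mul]
      exact isUnit_one
    have hdvd : X ^ N ∣ (map γ E - E) * (map γ y * y) := by
      refine ⟨C (θ ^ p) * y - C θ * map (frobenius R p) y, ?_⟩
      have h1 : (map γ E - E) * (map γ y * y) = (map γ E * map γ y) * y - (E * y) * map γ y := by
        ring
      rw [h1, hEγ, hEy, hγy]
      ring
    rw [hunit.dvd_mul_right] at hdvd
    intro m hm
    rw [X_pow_dvd_iff] at hdvd
    have h2 := hdvd m hm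
    rw [map_sub, coeff_map, sub_eq_zero] at h2
    exact h2

/-- the norm of `E` -/
theorem dvd_prod_frob (hγ : (γ ^ p ^ n) θ = θ) (hθ : ∑ j ∈ Finset.range (p ^ n), (γ ^ j) θ = 1)
    {E : R⟦X⟧} (hE : E * Y γ θ (p ^ n) = map (frobenius R p) (Y γ θ (p ^ n)))
    {κ : Type*} [CommRing κ] [CharP κ p] (ev : R →+* κ) (a r : ℕ)
    (hev : ∀ c, ev ((γ ^ a) c) = ev c ^ p ^ r) :
    X ^ p ^ n ∣ (∏ i ∈ Finset.range r, map (iterateFrobenius κ p i) (map ev E)) - (1 - X) ^ a := by
  set N := p ^ n with hN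
  set y := Y γ θ N with hy
  set yb := map ev y with hyb
  have hyb1 : constantCoeff yb = 1 := by
    rw [hyb, constantCoeff_map', hy, constantCoeff_Y, hθ, map_one]
  have hunit : IsUnit yb := by
    rw [isUnit_iff_constantCoeff, hyb1]; exact isUnit_one
  have hEb : map ev E * yb = map (frobenius κ p) yb := by
    rw [hyb, ← map_mul, hE]
    ext m
    rw [coeff_map, coeff_map, coeff_map, coeff_map, frobenius_def, frobenius_def, map_pow]
  have htel : ∀ r : ℕ, (∏ i ∈ Finset.range r, map (iterateFrobenius κ p i) (map ev E)) * yb =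
      map (iterateFrobenius κ p r) yb := by
    intro r
    induction r with
    | zero =>
      rw [Finset.prod_range_zero, one_mul, map_iterateFrobenius_zero]
    | succ r ih =>
      rw [Finset.prod_range_succ, mul_right_comm, ih, mul_comm, ← map_mul, hEb,
        map_iterateFrobenius_succ]
  have h1 : map (iterateFrobenius κ p r) yb = map ev (map (γ ^ a) y) := by
    ext m
    rw [hyb, coeff_map, coeff_map, coeff_map, coeff_map, hev, iterateFrobenius_def]
  obtain ⟨c, hc⟩ := dvd_map_pow_Y γ θ p n hγ a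
  have h2 : map (iterateFrobenius κ p r) yb - (1 - X) ^ a * yb = X ^ N * map ev c := by
    have h3 : map (γ ^ a) y = (1 - X) ^ a * y + X ^ N * c := by
      rw [← hc]; ring
    rw [h1, h3, map_add, map_mul, map_mul, map_pow, map_pow, map_sub, map_one, map_X, ← hyb]
    ring
  rw [← hunit.dvd_mul_right (a := X ^ N), sub_mul, htel r, h2]
  exact dvd_mul_right _ _

end ArtinAux

end Pool.Agent.helper90.Zp
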