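import Pool.Agent.helper41.Zp.Trace
import Pool.Agent.helper41.Zp.PowSer

/-!
The Artin polynomial of a cyclic extension of degree `p ^ n` unramified outside `T`.
-/

open scoped Polynomial WithZero Pointwise

set_option linter.unusedSectionVars false

namespace Pool.Agent.helper90.Zp

variable {k K L : Type*} [Field k] [Field K] [Field L] [Algebra k K] [Algebra k L] [Algebra K L]
  [IsScalarTower k K L]

section traceone

variable [Finite k] [IsFunctionField k K] [IsFunctionField k L] [FiniteDimensional K L]
  [IsGalois K L]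

theorem algebraMap_mem_regularOutside {T : Set (Place k K)} {c : K} (hc : c ∈ regularOutside T) :
    algebraMap K L c ∈ regularOutside (placesAbove L T) := by
  intro w hw
  exact hc _ hw

theorem mem_regularOutside_of_algebraMap {T : Set (Place k K)} {c : K}
    (hc : algebraMap K L c ∈ regularOutside (placesAbove L T)) : c ∈ regularOutside T := by
  intro v hv
  obtain ⟨w, hw⟩ := exists_below_eq (L := L) v
  rw [← Place.mem_ring_of_below_eq hw]
  apply hc
  rw [mem_placesAbove, hw]
  exact hv

variable (L) in
/-- the ideal of traces -/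
noncomputable def traceIdeal (T : Set (Place k K)) : Ideal (regularOutside T).toSubring where
  carrier := {a | ∃ θ ∈ regularOutside (placesAbove L T), Algebra.trace K L θ = a}
  add_mem' := by
    rintro a b ⟨θ, hθ, ha⟩ ⟨η, hη, hb⟩
    refine ⟨θ + η, add_mem hθ hη, ?_⟩
    rw [map_add, ha, hb]; rfl
  zero_mem' := ⟨0, zero_mem _, by rw [map_zero]; rfl⟩
  smul_mem' := by
    rintro c a ⟨θ, hθ, ha⟩
    refine ⟨algebraMap K L c * θ, mul_mem (algebraMap_mem_regularOutside c.2) hθ, ?_⟩
    rw [← Algebra.smul_def, map_smul, ha, smul_eq_mul]; rfl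

theorem exists_trace_eq_one (T : Set (Place k K)) (hT : T.Finite) (hT' : T.Nonempty)
    (hram : ∀ w : Place k L, w.below K ∉ T → w.IsUnramifiedOver K) :
    ∃ θ ∈ regularOutside (placesAbove L T), Algebra.trace K L θ = 1 := by
  suffices h : traceIdeal L T = ⊤ by
    have h1 : (1 : (regularOutside T).toSubring) ∈ traceIdeal L T := by rw [h]; trivial
    obtain ⟨θ, hθ, h2⟩ := h1
    exact ⟨θ, hθ, h2⟩
  by_contra hne
  obtain ⟨B, hAB, hIB⟩ := Ideal.image_subset_nonunits_valuationSubring
    (A := (regularOutside T).toSubring) (traceIdeal L T) hne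
  obtain ⟨f, hf, hfT⟩ := exists_poles_eq T hT hT'
  have hfA : f ∈ regularOutside T := by
    intro v hv
    rw [← hfT, Set.mem_ofPred_eq, not_lt, v.val_le_one_iff] at hv
    exact hv
  have key : ∀ v : Place k K, v ∉ T → ∃ c : K, c ∈ B.nonunits ∧ ¬ v.ring.valuation c < 1 := by
    intro v hv
    obtain ⟨θ, hθ, hθ'⟩ := exists_trace_not_lt_one (L := L) T hT' v hv (by
      intro w hw
      apply hram
      rw [hw]; exact hv)
    exact ⟨Algebra.trace K L θ, hIB ⟨⟨_, trace_mem_ring hθ⟩, ⟨θ, hθ, rfl⟩, rfl⟩, hθ'⟩
  have halg : ∀ a : k, algebraMap k K a ∈ B := fun a =>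
    hAB ((regularOutside T).algebraMap_mem a)
  have hBtop : B ≠ ⊤ := by
    rintro rfl
    obtain ⟨v, hv⟩ := Place.exists_of_transcendental (k := k) f hf
    have hvT : v ∉ T := by
      rw [← hfT, Set.mem_ofPred_eq, not_lt]; exact hv.le
    obtain ⟨c, hc, hc'⟩ := key v hvT
    have hc0 : c ≠ 0 := by
      rintro rfl
      apply hc'
      rw [map_zero]; exact zero_lt_one
    rw [ValuationSubring.mem_nonunits_iff] at hc
    have h1 : c⁻¹ ∈ (⊤ : ValuationSubring K) := trivial
    rw [← ValuationSubring.valuation_le_one_iff, map_inv₀] at h1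
    have h2 : (⊤ : ValuationSubring K).valuation c ≠ 0 := by rwa [ne_eq, map_eq_zero]
    exact absurd h1 (not_le.mpr ((one_lt_inv₀ (zero_lt_iff.mpr h2)).mpr hc))
  let v : Place k K := ⟨B, halg, hBtop⟩
  have hvT : v ∉ T := by
    rw [← hfT, Set.mem_ofPred_eq, not_lt, v.val_le_one_iff]
    exact hAB hfA
  obtain ⟨c, hc, hc'⟩ := key v hvT
  rw [ValuationSubring.mem_nonunits_iff] at hc
  exact hc' hc

end traceone

section artin

variable [Finite k] [IsFunctionField k K] [IsFunctionField k L] [FiniteDimensional K L]
  [IsGalois K L]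

/-- the action of an automorphism on the functions regular outside the places above `T` -/
noncomputable def regAction (T : Set (Place k K)) (σ : L ≃ₐ[K] L) :
    regularOutside (placesAbove L T) →+* regularOutside (placesAbove L T) where
  toFun x := ⟨σ x, by
    intro w hw
    rw [← Place.mem_comap_ring]
    apply x.2
    rw [mem_placesAbove, Place.below_comap]
    exact hw⟩
  map_one' := Subtype.ext (map_one σ)
  map_mul' x y := Subtype.ext (map_mul σ _ _)
  map_zero' := Subtype.ext (map_zero σ)
  map_add' x y := Subtype.ext (map_add σ _ _)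

theorem coe_regAction (T : Set (Place k K)) (σ : L ≃ₐ[K] L)
    (x : regularOutside (placesAbove L T)) : ((regAction T σ x : _) : L) = σ x := rfl

theorem coe_regAction_pow (T : Set (Place k K)) (σ : L ≃ₐ[K] L) (j : ℕ)
    (x : regularOutside (placesAbove L T)) :
    (((regAction T σ ^ j) x : _) : L) = (σ ^ j) x := by
  induction j with
  | zero => rfl
  | succ j ih =>
    rw [pow_succ', pow_succ' σ]
    change σ ((((regAction T σ ^ j) x : _) : L)) = σ ((σ ^ j) x)
    rw [ih]

theorem sum_range_pow_eq_sum {G M : Type*} [Group G] [Fintype G] [AddCommMonoid M] (γ : G)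
    (hγ : ∀ σ : G, σ ∈ Subgroup.zpowers γ) (f : G → M) :
    ∑ j ∈ Finset.range (Nat.card G), f (γ ^ j) = ∑ σ, f σ := by
  classical
  have hord : orderOf γ = Nat.card G := orderOf_eq_card_of_forall_mem_zpowers hγ
  apply Finset.sum_bij (fun i _ => γ ^ i)
  · intro i _; exact Finset.mem_univ _
  · intro i hi j hj hij
    rw [Finset.mem_range, ← hord] at hi hj
    exact pow_injOn_Iio_orderOf hi hj hij
  · intro σ _
    have h1 := hγ σ
    rw [mem_zpowers_iff_mem_range_orderOf, Finset.mem_image, hord] at h1
    obtain ⟨i, hi, hi'⟩ := h1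
    exact ⟨i, hi, hi'⟩
  · intro i _; rfl

theorem dvd_prod_sub_prod {R ι : Type*} [CommRing R] (s : Finset ι) (a b : ι → R) (d : R)
    (h : ∀ i ∈ s, d ∣ a i - b i) : d ∣ ∏ i ∈ s, a i - ∏ i ∈ s, b i := by
  classical
  induction s using Finset.induction_on with
  | empty => simp
  | insert i s his ih =>
    rw [Finset.prod_insert his, Finset.prod_insert his]
    have h1 := ih (fun j hj => h j (Finset.mem_insert_of_mem hj))
    have h2 := h i (Finset.mem_insert_self i s)
    have h3 : a i * ∏ i ∈ s, a i - b i * ∏ i ∈ s, b i =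
        a i * (∏ i ∈ s, a i - ∏ i ∈ s, b i) + (a i - b i) * ∏ i ∈ s, b i := by ring
    rw [h3]
    exact dvd_add (dvd_mul_of_dvd_right h1 _) (dvd_mul_of_dvd_left h2 _)

/-- inclusion of local rings -/
def Place.inclRing {v : Place k K} {w : Place k L} (h : w.below K = v) : v.ring →+* w.ring :=
  ((algebraMap K L).comp (algebraMap v.ring K)).codRestrict
    w.ring.toSubring (fun a => (Place.mem_ring_of_below_eq h).mpr a.2)

theorem Place.coe_inclRing {v : Place k K} {w : Place k L} (h : w.below K = v) (x : v.ring) :
    ((Place.inclRing h x : w.ring) : L) = algebraMap K L x := rfl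

instance Place.isLocalHom_inclRing {v : Place k K} {w : Place k L} (h : w.below K = v) :
    IsLocalHom (Place.inclRing h) := by
  constructor
  intro x hx
  by_contra hnot
  have h1 : x ∈ IsLocalRing.maximalIdeal v.ring := hnot
  rw [v.ring.valuation_lt_one_iff] at h1
  have h2 := (Place.valuation_lt_one_of_below h).mpr h1
  have h3 : Place.inclRing h x ∈ IsLocalRing.maximalIdeal w.ring := by
    rw [w.ring.valuation_lt_one_iff]; exact h2
  exact h3 hx

theorem exists_artin_poly (p n : ℕ) [Fact p.Prime] [CharP k p]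
    (T : Set (Place k K)) (hT : T.Finite) (hT' : T.Nonempty)
    (hram : ∀ w : Place k L, w.below K ∉ T → w.IsUnramifiedOver K)
    (γ : L ≃ₐ[K] L) (hγ : ∀ σ : L ≃ₐ[K] L, σ ∈ Subgroup.zpowers γ)
    (hcard : Nat.card (L ≃ₐ[K] L) = p ^ n) (a : Place k K → ℕ)
    (ha : ∀ v ∉ T, ∀ w : Place k L, w.below K = v → ∀ b ∈ w.ring,
      w.ring.valuation ((γ ^ a v) b - b ^ Nat.card (IsLocalRing.ResidueField v.ring)) < 1) :
    ∃ E : (regularOutside T)[X], E.coeff 0 = 1 ∧ ∀ v (hv : v ∉ T),
      Polynomial.X ^ (p ^ n) ∣ frobNorm p E v hv - (1 - Polynomial.X) ^ (a v) := by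
  classical
  set N := p ^ n with hN
  have hN0 : 0 < N := pow_pos (Fact.out : p.Prime).pos n
  obtain ⟨θ, hθ, hθ1⟩ := exists_trace_eq_one (L := L) T hT hT' hram
  have hchar : CharP (regularOutside (placesAbove L T)) p :=
    charP_of_injective_algebraMap (algebraMap k (regularOutside (placesAbove L T))).injective p
  let γ' := regAction T γ
  let θ' : regularOutside (placesAbove L T) := ⟨θ, hθ⟩
  have hγN : (γ' ^ N) θ' = θ' := by
    apply Subtype.ext
    rw [coe_regAction_pow, ← hcard, pow_card_eq_one']
    rfl
  have hsum : ∑ j ∈ Finset.range N, (γ' ^ j) θ' = 1 := by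
    apply Subtype.ext
    rw [AddSubmonoidClass.coe_finsetSum]
    have h1 : ∀ j ∈ Finset.range N, (((γ' ^ j) θ' : _) : L) = (fun σ : L ≃ₐ[K] L => σ θ) (γ ^ j) :=
      fun j _ => coe_regAction_pow T γ j θ'
    rw [Finset.sum_congr rfl h1, ← hcard, sum_range_pow_eq_sum γ hγ (fun σ => σ θ),
      ← trace_eq_sum_automorphisms, hθ1, map_one]
    rfl
  obtain ⟨EL, hE, hE0, hEγ⟩ := ArtinAux.exists_E γ' θ' p n hγN hsum
  have hc : ∀ m, ∃ c : regularOutside T, m < N →
      algebraMap K L c = ((PowerSeries.coeff m EL : regularOutside (placesAbove L T)) : L) := by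
    intro m
    by_cases hm : m < N
    · have h1 : γ ((PowerSeries.coeff m EL : regularOutside (placesAbove L T)) : L) =
          (PowerSeries.coeff m EL : regularOutside (placesAbove L T)) :=
        congrArg Subtype.val (hEγ m hm)
      have h2 : ∀ σ : L ≃ₐ[K] L, σ ((PowerSeries.coeff m EL : regularOutside (placesAbove L T)) : L)
          = (PowerSeries.coeff m EL : regularOutside (placesAbove L T)) := by
        intro σ
        have h3 := hγ σ
        rw [mem_zpowers_iff_mem_range_orderOf, Finset.mem_image] at h3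
        obtain ⟨i, -, rfl⟩ := h3
        induction i with
        | zero => rfl
        | succ i ih =>
          rw [pow_succ, AlgEquiv.mul_apply, h1, ih]
      rw [← IsGalois.mem_range_algebraMap_iff_fixed] at h2
      obtain ⟨c, hc⟩ := h2
      refine ⟨⟨c, mem_regularOutside_of_algebraMap (L := L) ?_⟩, fun _ => hc⟩
      rw [hc]
      exact (PowerSeries.coeff m EL).2
    · exact ⟨0, fun h => absurd h hm⟩
  choose c hc using hc
  have hc0 : c 0 = 1 := by
    apply Subtype.ext
    apply (algebraMap K L).injective
    rw [hc 0 hN0, PowerSeries.coeff_zero_eq_constantCoeff_apply, hE0]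
    change (1 : L) = algebraMap K L 1
    rw [map_one]
  let E : (regularOutside T)[X] := PowerSeries.trunc N (PowerSeries.mk c)
  have hEcoeff : ∀ m, E.coeff m = if m < N then c m else 0 := by
    intro m
    rw [PowerSeries.coeff_trunc, PowerSeries.coeff_mk]
  refine ⟨E, ?_, ?_⟩
  · rw [hEcoeff, if_pos hN0, hc0]
  · intro v hv
    obtain ⟨w, h⟩ := exists_below_eq (L := L) v
    have hwT : w ∉ placesAbove L T := by rw [mem_placesAbove, h]; exact hv
    have hcv : CharP (IsLocalRing.ResidueField v.ring) p :=
      charP_of_injective_algebraMap (algebraMap k (IsLocalRing.ResidueField v.ring)).injective p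
    have hcw : CharP (IsLocalRing.ResidueField w.ring) p :=
      charP_of_injective_algebraMap (algebraMap k (IsLocalRing.ResidueField w.ring)).injective p
    set r := Nat.log p (Nat.card (IsLocalRing.ResidueField v.ring)) with hr
    have hqr : Nat.card (IsLocalRing.ResidueField v.ring) = p ^ r := by
      have : Fintype (IsLocalRing.ResidueField v.ring) := Fintype.ofFinite _
      obtain ⟨m, _, hm⟩ := FiniteField.card (IsLocalRing.ResidueField v.ring) p
      rw [hr, Nat.card_eq_fintype_card, hm, Nat.log_pow (Fact.out : p.Prime).one_lt]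
    let ev : regularOutside (placesAbove L T) →+* IsLocalRing.ResidueField w.ring := evalAt w hwT
    have hev0 : ∀ x : regularOutside (placesAbove L T), ev x = IsLocalRing.residue w.ring
        ⟨x, x.2 w hwT⟩ := fun x => rfl
    have hev : ∀ x, ev ((γ' ^ a v) x) = ev x ^ p ^ r := by
      intro x
      rw [hev0, hev0, ← map_pow, ← sub_eq_zero, ← map_sub, w.residue_eq_zero_iff]
      have h1 := ha v hv w h x (x.2 w hwT)
      rw [hqr] at h1
      have h2 : (((γ' ^ a v) x : regularOutside (placesAbove L T)) : L) = (γ ^ a v) x :=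
        coe_regAction_pow T γ (a v) x
      have h3 : (((⟨((γ' ^ a v) x : regularOutside (placesAbove L T)),
          ((γ' ^ a v) x).2 w hwT⟩ : w.ring) - ⟨x, x.2 w hwT⟩ ^ p ^ r : w.ring) : L) =
          (γ ^ a v) x - (x : L) ^ p ^ r := by
        rw [← h2]; rfl
      rw [h3]
      exact h1
    have hmain := ArtinAux.dvd_prod_frob γ' θ' p n hγN hsum hE ev (a v) r hev
    let ι : IsLocalRing.ResidueField v.ring →+* IsLocalRing.ResidueField w.ring :=
      IsLocalRing.ResidueField.map (Place.inclRing h)
    have hι : Function.Injective ι := ι.injective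
    have hιev : ∀ x : regularOutside T, ι (evalAt v hv x) =
        IsLocalRing.residue w.ring ⟨algebraMap K L x, algebraMap_mem_regularOutside x.2 w hwT⟩ := by
      intro x
      rfl
    -- compare the factors
    have hfac : ∀ i ∈ Finset.range r, (PowerSeries.X : PowerSeries (IsLocalRing.ResidueField w.ring)) ^ N ∣
        (((((E.map (evalAt v hv)).map
          (iterateFrobenius (IsLocalRing.ResidueField v.ring) p i)).map ι :
          (IsLocalRing.ResidueField w.ring)[X])) : PowerSeries (IsLocalRing.ResidueField w.ring)) -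
        PowerSeries.map (iterateFrobenius (IsLocalRing.ResidueField w.ring) p i)
          (PowerSeries.map ev EL) := by
      intro i _
      rw [PowerSeries.X_pow_dvd_iff]
      intro m hm
      rw [map_sub, Polynomial.coeff_coe, Polynomial.coeff_map, Polynomial.coeff_map,
        Polynomial.coeff_map, hEcoeff, if_pos hm, PowerSeries.coeff_map, PowerSeries.coeff_map,
        iterateFrobenius_def, iterateFrobenius_def, map_pow, hιev, sub_eq_zero]
      congr 1
      rw [hev0]
      congr 1
      exact Subtype.ext (hc m hm)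
    have hprod := dvd_prod_sub_prod (Finset.range r) _ _ _ hfac
    have hall := dvd_add hprod hmain
    rw [sub_add_sub_cancel] at hall
    rw [Polynomial.X_pow_dvd_iff]
    intro m hm
    apply hι
    rw [PowerSeries.X_pow_dvd_iff] at hall
    have h5 := hall m hm
    rw [map_zero, ← h5, ← Polynomial.coeff_map, ← Polynomial.coeff_coe]
    congr 1
    rw [Polynomial.map_sub, Polynomial.coe_sub]
    congr 1
    · rw [frobNorm, Polynomial.map_prod]
      have h6 := map_prod
        (Polynomial.coeToPowerSeries.ringHom (R := IsLocalRing.ResidueField w.ring))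
        (fun i => (((E.map (evalAt v hv)).map
          (iterateFrobenius (IsLocalRing.ResidueField v.ring) p i)).map ι)) (Finset.range r)
      simpa only [Polynomial.coeToPowerSeries.ringHom_apply] using h6
    · simp

end artin

end Pool.Agent.helper90.Zp
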