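import Pool.Agent.helper90.Zp.Riemann

/-!
Finite extensions of function fields: places above a given place.
-/

open scoped Polynomial WithZero

namespace Pool.Agent.helper90.Zp

variable {k K L : Type*} [Field k] [Field K] [Field L] [Algebra k K] [Algebra k L] [Algebra K L]
  [IsScalarTower k K L]

theorem IsFunctionField.of_finiteDimensional [h : IsFunctionField k K] [FiniteDimensional K L] :
    IsFunctionField k L := by
  obtain ⟨t, ht, hfin⟩ := h.exists_transcendental
  have hess : Algebra.EssFiniteType k K := h.essFiniteType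
  have halg : Algebra.IsAlgebraic (IntermediateField.adjoin k {t}) K := inferInstance
  have ht' : AlgebraicIndependent k (fun _ : Unit => t) := by
    rw [algebraicIndependent_unique_type_iff]; exact ht
  have hrt : Set.range (fun _ : Unit => t) = {t} := by simp
  have hbt : IsTranscendenceBasis k (fun _ : Unit => t) := by
    rw [isTranscendenceBasis_iff_algebraicIndependent_isAlgebraic]
    refine ⟨ht', ?_⟩
    rw [hrt]
    open scoped IntermediateField.algebraAdjoinAdjoin in
    exact Algebra.IsAlgebraic.trans (Algebra.adjoin k {t}) (IntermediateField.adjoin k {t}) K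
  have hbt' : IsTranscendenceBasis k (algebraMap K L ∘ fun _ : Unit => t) :=
    hbt.algebraMap_comp
  have htL : Transcendental k (algebraMap K L t) := by
    have := hbt'.1
    rw [algebraicIndependent_unique_type_iff] at this
    exact this
  refine ⟨algebraMap K L t, htL, ?_⟩
  have := (isTranscendenceBasis_iff_algebraicIndependent_isAlgebraic.mp hbt').2
  have hrt' : Set.range (algebraMap K L ∘ fun _ : Unit => t) = {algebraMap K L t} := by
    ext x; simp [eq_comm]
  rw [hrt'] at this
  have h1 : Algebra.EssFiniteType k L := Algebra.EssFiniteType.comp k K L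
  have h2 : Algebra.IsAlgebraic (IntermediateField.adjoin k {algebraMap K L t}) L := by
    constructor
    intro x
    exact (this.isAlgebraic x).tower_top_of_subalgebra_le
      (IntermediateField.algebra_adjoin_le_adjoin k {algebraMap K L t})
  have h3 : Algebra.EssFiniteType (IntermediateField.adjoin k {algebraMap K L t}) L :=
    Algebra.EssFiniteType.of_comp k _ _
  exact Algebra.finite_of_essFiniteType_of_isAlgebraic

theorem Place.ring_injective : Function.Injective (Place.ring : Place k K → ValuationSubring K) := by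
  rintro ⟨a, _, _⟩ ⟨b, _, _⟩ h
  simpa using h

theorem Place.ext' {v w : Place k K} (h : v.ring = w.ring) : v = w := Place.ring_injective h

/-- inclusion of places is equality -/
theorem Place.eq_of_le [IsFunctionField k K] {v w : Place k K} (h : v.ring ≤ w.ring) : v = w := by
  apply Place.ext'
  apply le_antisymm h
  -- a DVR is a maximal proper subring
  intro x hx
  by_contra hxv
  obtain ⟨y, hy⟩ := w.exists_one_lt
  -- v.val x > 1, hence v.val y ≤ (v.val x)^n for some n
  have h1 : 1 < v.val x := by
    rw [← not_le, v.val_le_one_iff]; exact hxv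
  have hy0 : y ≠ 0 := by
    rintro rfl; rw [map_zero] at hy; exact absurd hy (not_lt.mpr zero_le_one)
  have hx0 : x ≠ 0 := by
    rintro rfl; rw [map_zero] at h1; exact absurd h1 (not_lt.mpr zero_le_one)
  have hn : ∃ n : ℕ, v.val y ≤ v.val x ^ n := by
    have hpos : 1 ≤ - v.ord x := by
      rw [v.val_eq_exp_neg_ord hx0, ← WithZero.exp_zero, WithZero.exp_lt_exp] at h1
      omega
    refine ⟨(- v.ord y).toNat, ?_⟩
    rw [v.val_eq_exp_neg_ord hy0, v.val_eq_exp_neg_ord hx0, ← WithZero.exp_nsmul,
      WithZero.exp_le_exp]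
    have h2 := Int.self_le_toNat (- v.ord y)
    rw [nsmul_eq_mul]
    nlinarith [Int.natCast_nonneg (- v.ord y).toNat]
  obtain ⟨n, hn⟩ := hn
  have hmem : y / x ^ n ∈ v.ring := by
    rw [← v.val_le_one_iff, map_div₀, map_pow]
    exact div_le_one_of_le₀ hn zero_le
  have h3 : y ∈ w.ring := by
    have h4 := w.ring.mul_mem _ _ (h hmem) (pow_mem hx n)
    rwa [div_mul_cancel₀ _ (pow_ne_zero _ hx0)] at h4
  exact absurd ((w.ring.valuation_le_one_iff y).mpr h3) (not_le.mpr hy)

theorem valuation_lt_one_iff_inv {F : Type*} [Field F] (A : ValuationSubring F) {y : F}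
    (hy : y ≠ 0) : A.valuation y < 1 ↔ ¬ A.valuation y⁻¹ ≤ 1 := by
  have : A.valuation y ≠ 0 := by rwa [ne_eq, map_eq_zero]
  rw [map_inv₀, not_le, one_lt_inv₀ (zero_lt_iff.mpr this)]

section below

variable [Algebra.IsAlgebraic K L]

theorem Place.mem_below {w : Place k L} {x : K} :
    x ∈ (w.below K).ring ↔ algebraMap K L x ∈ w.ring := Iff.rfl

theorem Place.mem_ring_of_below_eq {w : Place k L} {v : Place k K} (h : w.below K = v) {x : K} :
    algebraMap K L x ∈ w.ring ↔ x ∈ v.ring := by
  subst h; rfl

theorem Place.valuation_le_one_of_below {w : Place k L} {v : Place k K} (h : w.below K = v)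
    {x : K} : w.ring.valuation (algebraMap K L x) ≤ 1 ↔ v.ring.valuation x ≤ 1 := by
  rw [ValuationSubring.valuation_le_one_iff, ValuationSubring.valuation_le_one_iff]
  exact Place.mem_ring_of_below_eq h

theorem Place.valuation_lt_one_of_below {w : Place k L} {v : Place k K} (h : w.below K = v)
    {x : K} : w.ring.valuation (algebraMap K L x) < 1 ↔ v.ring.valuation x < 1 := by
  by_cases hx : x = 0
  · simp [hx]
  rw [valuation_lt_one_iff_inv w.ring (by simpa using hx), valuation_lt_one_iff_inv v.ring hx,
    ← map_inv₀, Place.valuation_le_one_of_below h]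

/-- transitivity of `below` -/
theorem Place.below_below {M : Type*} [Field M] [Algebra k M] [Algebra K M] [Algebra M L]
    [IsScalarTower k K M] [IsScalarTower k M L] [IsScalarTower K M L]
    [Algebra.IsAlgebraic K M] [Algebra.IsAlgebraic M L] (w : Place k L) :
    (w.below M).below K = w.below K := by
  apply Place.ext'
  ext x
  change algebraMap M L (algebraMap K M x) ∈ w.ring ↔ algebraMap K L x ∈ w.ring
  rw [← IsScalarTower.algebraMap_apply]

theorem exists_below_eq (v : Place k K) : ∃ w : Place k L, w.below K = v := by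
  obtain ⟨W, hW, hloc⟩ := IsLocalRing.exists_factor_valuationRing
    ((algebraMap K L).comp (algebraMap v.ring K))
  have hcomap : W.comap (algebraMap K L) = v.ring := by
    apply le_antisymm
    · intro x hx
      by_contra hxv
      have hx0 : x ≠ 0 := by rintro rfl; exact hxv (zero_mem _)
      have hinv : x⁻¹ ∈ v.ring := (v.ring.mem_or_inv_mem x).resolve_left hxv
      have hu : IsUnit ((((algebraMap K L).comp (algebraMap v.ring K)).codRestrict
          W.toSubring hW) ⟨x⁻¹, hinv⟩) := by
        rw [isUnit_iff_exists_inv]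
        refine ⟨⟨algebraMap K L x, hx⟩, ?_⟩
        apply Subtype.ext
        change algebraMap K L x⁻¹ * algebraMap K L x = 1
        rw [← map_mul, inv_mul_cancel₀ hx0, map_one]
      have hu' := hloc.map_nonunit _ hu
      obtain ⟨y, hy⟩ := isUnit_iff_exists_inv.mp hu'
      have hy' : x⁻¹ * (y : K) = 1 := congrArg Subtype.val hy
      have : (y : K) = x := by
        rw [inv_mul_eq_iff_eq_mul₀ hx0, mul_one] at hy'; exact hy'
      exact hxv (this ▸ y.2)
    · intro x hx
      exact hW ⟨x, hx⟩
  have halg : ∀ a : k, algebraMap k L a ∈ W := by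
    intro a
    rw [IsScalarTower.algebraMap_apply k K L]
    exact hW ⟨algebraMap k K a, v.algebraMap_mem a⟩
  have hne : W ≠ ⊤ := by
    rintro rfl
    apply v.ne_top
    rw [← hcomap]
    ext x
    simp only [ValuationSubring.mem_comap]
    exact ⟨fun _ => trivial, fun _ => trivial⟩
  exact ⟨⟨W, halg, hne⟩, Place.ext' hcomap⟩

end below

theorem finite_below [IsFunctionField k K] [IsFunctionField k L] [Algebra.IsAlgebraic K L]
    (v : Place k K) : {w : Place k L | w.below K = v}.Finite := by
  obtain ⟨x, hx0, hx1⟩ : ∃ x : K, x ≠ 0 ∧ v.ring.valuation x < 1 := by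
    obtain ⟨w, hw⟩ := v.exists_one_lt
    have hw0 : w ≠ 0 := by
      rintro rfl; rw [map_zero] at hw; exact absurd hw (not_lt.mpr zero_le_one)
    exact ⟨w⁻¹, inv_ne_zero hw0, by rw [map_inv₀]; exact inv_lt_one_of_one_lt₀ hw⟩
  have hxL : (algebraMap K L x) ≠ 0 := by simpa using hx0
  refine (finite_val_ne_one (k := k) hxL).subset ?_
  intro w hw
  have h1 := (Place.valuation_lt_one_of_below hw).mpr hx1
  rw [← w.val_lt_one_iff] at h1
  exact h1.ne

end Pool.Agent.helper90.Zp
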