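import Pool.Agent.helper41.Zp.Local

/-!
Galois extensions: decomposition law and Frobenius elements.
-/

open scoped Polynomial WithZero Pointwise

namespace Pool.Agent.helper90.Zp

variable {k K L : Type*} [Field k] [Field K] [Field L] [Algebra k K] [Algebra k L] [Algebra K L]
  [IsScalarTower k K L]

section galois

variable [IsFunctionField k K] [FiniteDimensional K L] [IsGalois K L]

instance (v : Place k K) :
    IsGaloisGroup (L ≃ₐ[K] L) v.ring (integralClosure v.ring L) :=
  IsGaloisGroup.of_isFractionRing _ _ _ K L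

instance (v : Place k K) : Module.IsTorsionFree v.ring (integralClosure v.ring L) := by
  rw [Module.isTorsionFree_iff_faithfulSMul]
  infer_instance

theorem Place.coe_smul (v : Place k K) (σ : L ≃ₐ[K] L) (b : integralClosure v.ring L) :
    ((σ • b : integralClosure v.ring L) : L) = σ b := rfl

variable [Finite k]

instance (v : Place k K) : Finite (IsLocalRing.ResidueField v.ring) :=
  Module.finite_of_finite k

theorem Place.card_residueField (v : Place k K) :
    Nat.card (IsLocalRing.ResidueField v.ring) = Nat.card k ^ v.deg :=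
  Module.natCard_eq_pow_finrank

theorem Place.perfectField (v : Place k K) :
    PerfectField (IsLocalRing.maximalIdeal v.ring).ResidueField := by
  have : Finite (v.ring ⧸ IsLocalRing.maximalIdeal v.ring) :=
    inferInstanceAs (Finite (IsLocalRing.ResidueField v.ring))
  have : Finite (IsLocalRing.maximalIdeal v.ring).ResidueField :=
    Finite.of_surjective _
      (IsLocalRing.maximalIdeal v.ring).bijective_algebraMap_quotient_residueField.2
  infer_instance

variable {v : Place k K} {w : Place k L} (h : w.below K = v)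

theorem Place.card_residueField_eq_pow [IsFunctionField k L] :
    Nat.card (IsLocalRing.ResidueField w.ring) =
      Nat.card (IsLocalRing.ResidueField v.ring) ^ (Place.primeOf h).inertiaDeg v.ring := by
  have h1 := Ideal.cardQuot_pow_inertiaDeg (IsLocalRing.maximalIdeal v.ring) (Place.primeOf h)
  rw [Submodule.cardQuot_apply, Submodule.cardQuot_apply] at h1
  rw [← Nat.card_congr (Place.quotEquiv h).toEquiv]
  exact h1.symm

theorem Place.deg_eq_inertiaDeg_mul [IsFunctionField k L] :
    w.deg = (Place.primeOf h).inertiaDeg v.ring * v.deg := by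
  have h1 := Place.card_residueField_eq_pow h
  rw [w.card_residueField, v.card_residueField, ← pow_mul] at h1
  have h2 := Nat.pow_right_injective (Nat.succ_le_of_lt Finite.one_lt_card) h1
  rw [h2, mul_comm]

theorem Place.card_inertia :
    Nat.card ((Place.primeOf h).inertia (L ≃ₐ[K] L)) =
      (Place.primeOf h).ramificationIdx v.ring := by
  have := v.perfectField
  have := v.maximalIdeal_ne_bot
  rw [Ideal.card_inertia_eq_ramificationIdxIn (IsLocalRing.maximalIdeal v.ring) (Place.primeOf h),
    Ideal.ramificationIdxIn_eq_ramificationIdx (IsLocalRing.maximalIdeal v.ring) (Place.primeOf h)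
      (L ≃ₐ[K] L)]

theorem Place.card_below_mul :
    Nat.card {w : Place k L // w.below K = v} *
      ((Place.primeOf h).ramificationIdx v.ring * (Place.primeOf h).inertiaDeg v.ring) =
      Nat.card (L ≃ₐ[K] L) := by
  have := v.perfectField
  have h1 := Ideal.ncard_primesOver_mul_card_inertia_mul_finrank (G := L ≃ₐ[K] L)
    (IsLocalRing.maximalIdeal v.ring) (Place.primeOf h)
  rw [Place.card_inertia h, mul_assoc] at h1
  rw [← h1, Nat.card_congr (Place.primesEquiv v)]
  rfl

/-- A Frobenius element at the prime of the integral closure acts as Frobenius on the whole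
valuation ring. -/
theorem Place.frob_of_isArithFrobAt {σ : L ≃ₐ[K] L}
    (hσ : IsArithFrobAt v.ring σ (Place.primeOf h)) (x : L) (hx : x ∈ w.ring) :
    w.ring.valuation (σ x - x ^ Nat.card (IsLocalRing.ResidueField v.ring)) < 1 := by
  have hover : (Place.primeOf h).under v.ring = IsLocalRing.maximalIdeal v.ring :=
    ((Place.primeOf_liesOver h).over).symm
  set q := Nat.card (IsLocalRing.ResidueField v.ring) with hq
  have hq0 : q ≠ 0 := Nat.card_pos.ne'
  have key : ∀ b : integralClosure v.ring L, w.ring.valuation (σ b - (b : L) ^ q) < 1 := by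
    intro b
    have h1 := hσ b
    rw [hover, Place.mem_primeOf] at h1
    exact h1
  have hle : ∀ b : integralClosure v.ring L, w.ring.valuation (b : L) ≤ 1 := fun b =>
    (w.ring.valuation_le_one_iff _).mpr (Place.mem_ring_of_isIntegral h b.2)
  obtain ⟨b, c, hc, hxc⟩ := Place.exists_div_eq h x hx
  have hc1 : w.ring.valuation (c : L) = 1 := by
    rw [Place.mem_primeOf, not_lt] at hc
    exact le_antisymm (hle c) hc
  have hσc1 : w.ring.valuation (σ c) = 1 := by
    have h2 : w.ring.valuation ((c : L) ^ q) = 1 := by rw [map_pow, hc1, one_pow]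
    have h3 : (σ c : L) = (σ c - (c : L) ^ q) + (c : L) ^ q := by ring
    rw [h3, Valuation.map_add_eq_of_lt_right, h2]
    rw [h2]; exact key c
  have heq : (σ x - x ^ q) * (σ c * (c : L) ^ q) =
      (σ b - (b : L) ^ q) * (c : L) ^ q - (b : L) ^ q * (σ c - (c : L) ^ q) := by
    rw [← hxc, map_mul, mul_pow]
    ring
  have h4 : w.ring.valuation ((σ x - x ^ q) * (σ c * (c : L) ^ q)) < 1 := by
    rw [heq]
    apply Valuation.map_sub_lt
    · rw [map_mul, map_pow, hc1, one_pow, mul_one]; exact key b
    · rw [map_mul, map_pow]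
      calc w.ring.valuation (b : L) ^ q * w.ring.valuation (σ c - (c : L) ^ q)
          ≤ 1 * w.ring.valuation (σ c - (c : L) ^ q) := by
            gcongr
            exact pow_le_one₀ zero_le (hle b)
        _ < 1 := by rw [one_mul]; exact key c
  rwa [map_mul, map_mul, map_pow, hσc1, hc1, one_pow, mul_one, mul_one] at h4

theorem Place.isArithFrobAt_of {σ : L ≃ₐ[K] L}
    (hσ : ∀ b ∈ w.ring,
      w.ring.valuation (σ b - b ^ Nat.card (IsLocalRing.ResidueField v.ring)) < 1) :
    IsArithFrobAt v.ring σ (Place.primeOf h) := by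
  have hover : (Place.primeOf h).under v.ring = IsLocalRing.maximalIdeal v.ring :=
    ((Place.primeOf_liesOver h).over).symm
  intro b
  rw [hover, Place.mem_primeOf]
  exact hσ b (Place.mem_ring_of_isIntegral h b.2)

theorem Place.inertia_eq_bot (hw : w.IsUnramifiedOver K) :
    (Place.primeOf h).inertia (L ≃ₐ[K] L) = ⊥ := by
  have h1 := Place.card_inertia h
  rw [(Place.isUnramifiedOver_iff h).mp hw] at h1
  exact Subgroup.eq_bot_of_card_eq _ h1

theorem Place.inertiaDeg_eq_orderOf [IsFunctionField k L] (hw : w.IsUnramifiedOver K)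
    {σ : L ≃ₐ[K] L} (hσ : IsArithFrobAt v.ring σ (Place.primeOf h)) :
    (Place.primeOf h).inertiaDeg v.ring = orderOf σ := by
  have hover : (Place.primeOf h).under v.ring = IsLocalRing.maximalIdeal v.ring :=
    ((Place.primeOf_liesOver h).over).symm
  set q := Nat.card (IsLocalRing.ResidueField v.ring) with hq
  have hq1 : 1 < q := Finite.one_lt_card
  set f := (Place.primeOf h).inertiaDeg v.ring with hf
  have hcard : Nat.card (integralClosure v.ring L ⧸ Place.primeOf h) = q ^ f := by
    rw [Nat.card_congr (Place.quotEquiv h).toEquiv]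
    exact Place.card_residueField_eq_pow h
  have hfin : Finite (integralClosure v.ring L ⧸ Place.primeOf h) :=
    Finite.of_equiv _ (Place.quotEquiv h).symm.toEquiv
  have hact : ∀ (m : ℕ) (b : integralClosure v.ring L),
      (σ ^ m) • b - b ^ q ^ m ∈ Place.primeOf h := by
    intro m
    induction m with
    | zero => intro b; simp
    | succ m ih =>
      intro b
      have h1 := ih (σ • b)
      have h2 : σ • b - b ^ q ∈ Place.primeOf h := by
        have := hσ b
        rw [hover] at this
        exact this
      have h3 : (σ • b) ^ q ^ m - (b ^ q) ^ q ^ m ∈ Place.primeOf h :=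
        Ideal.mem_of_dvd _ (sub_dvd_pow_sub_pow _ _ _) h2
      have h4 : (σ ^ (m + 1)) • b = (σ ^ m) • (σ • b) := by rw [pow_succ, mul_smul]
      have h5 : b ^ q ^ (m + 1) = (b ^ q) ^ q ^ m := by rw [← pow_mul, pow_succ']
      rw [h4, h5]
      have := add_mem h1 h3
      rwa [sub_add_sub_cancel] at this
  apply le_antisymm
  · -- every element of the residue field is a root of `X ^ q ^ m - X`
    set m := orderOf σ with hm
    have hm0 : 0 < m := orderOf_pos σ
    let _ : Field (integralClosure v.ring L ⧸ Place.primeOf h) := Ideal.Quotient.field _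
    have hroot : ∀ y : integralClosure v.ring L ⧸ Place.primeOf h, y ^ q ^ m = y := by
      intro y
      obtain ⟨b, rfl⟩ := Ideal.Quotient.mk_surjective y
      have := hact m b
      rw [hm, pow_orderOf_eq_one, one_smul, ← hm] at this
      rw [← map_pow, Ideal.Quotient.mk_eq_mk_iff_sub_mem]
      rw [← neg_mem_iff, neg_sub]
      exact this
    have h1 := FiniteField.X_pow_card_sub_X_natDegree_eq
      (integralClosure v.ring L ⧸ Place.primeOf h) (p := q ^ m)
      (Nat.one_lt_pow hm0.ne' hq1)
    have h2 : (Polynomial.X ^ q ^ m - Polynomial.X :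
        (integralClosure v.ring L ⧸ Place.primeOf h)[X]) ≠ 0 :=
      FiniteField.X_pow_card_sub_X_ne_zero _ (Nat.one_lt_pow hm0.ne' hq1)
    have : Fintype (integralClosure v.ring L ⧸ Place.primeOf h) := Fintype.ofFinite _
    have h3 : Fintype.card (integralClosure v.ring L ⧸ Place.primeOf h) ≤ q ^ m := by
      rw [← h1]
      refine le_trans ?_ (Polynomial.card_roots' _)
      rw [← Finset.card_univ]
      apply Multiset.card_le_card
      rw [Multiset.le_iff_subset (Finset.nodup _)]
      intro y _
      rw [Polynomial.mem_roots h2]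
      simp [hroot y]
    rw [← Nat.card_eq_fintype_card, hcard] at h3
    exact (Nat.pow_le_pow_iff_right hq1).mp h3
  · apply Nat.le_of_dvd
    · exact Ideal.inertiaDeg_pos (Place.primeOf h) v.ring
    · apply orderOf_dvd_of_pow_eq_one
      have hmem : σ ^ f ∈ (Place.primeOf h).inertia (L ≃ₐ[K] L) := by
        intro b
        have h1 := hact f b
        have h2 : b ^ q ^ f - b ∈ Place.primeOf h := by
          let _ : Field (integralClosure v.ring L ⧸ Place.primeOf h) := Ideal.Quotient.field _
          rw [← Ideal.Quotient.mk_eq_mk_iff_sub_mem, map_pow, ← hcard]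
          have : Fintype (integralClosure v.ring L ⧸ Place.primeOf h) := Fintype.ofFinite _
          rw [Nat.card_eq_fintype_card, FiniteField.pow_card]
        have h3 := add_mem h1 h2
        rwa [sub_add_sub_cancel] at h3
      rw [Place.inertia_eq_bot h hw, Subgroup.mem_bot] at hmem
      exact hmem

/-- Frobenius of an unramified place in an abelian extension, and the decomposition law. -/
theorem exists_frobenius [IsFunctionField k L] (hcomm : ∀ σ τ : L ≃ₐ[K] L, σ * τ = τ * σ)
    (v : Place k K) (hv : ∀ w : Place k L, w.below K = v → w.IsUnramifiedOver K) :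
    ∃ σ : L ≃ₐ[K] L,
      (∀ w : Place k L, w.below K = v → ∀ b ∈ w.ring,
        w.ring.valuation (σ b - b ^ Nat.card (IsLocalRing.ResidueField v.ring)) < 1) ∧
      (∀ w : Place k L, w.below K = v → w.deg = orderOf σ * v.deg) ∧
      Nat.card {w : Place k L // w.below K = v} * orderOf σ = Nat.card (L ≃ₐ[K] L) := by
  obtain ⟨w₀, h₀⟩ := exists_below_eq (L := L) v
  have : Finite (integralClosure v.ring L ⧸ Place.primeOf h₀) :=
    Finite.of_equiv _ (Place.quotEquiv h₀).symm.toEquiv
  obtain ⟨σ, hσ⟩ := IsArithFrobAt.exists_of_isInvariant v.ring (L ≃ₐ[K] L) (Place.primeOf h₀)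
  have hall : ∀ (w : Place k L) (h : w.below K = v),
      IsArithFrobAt v.ring σ (Place.primeOf h) := by
    intro w h
    obtain ⟨τ, hτ⟩ := Ideal.exists_smul_eq_of_isGaloisGroup (IsLocalRing.maximalIdeal v.ring)
      (Place.primeOf h₀) (Place.primeOf h) (L ≃ₐ[K] L)
    have h1 := hσ.conj τ
    rw [hτ, hcomm τ σ, mul_assoc, mul_inv_cancel, mul_one] at h1
    exact h1
  refine ⟨σ, ?_, ?_, ?_⟩
  · intro w h b hb
    exact Place.frob_of_isArithFrobAt h (hall w h) b hb
  · intro w h
    rw [Place.deg_eq_inertiaDeg_mul h, Place.inertiaDeg_eq_orderOf h (hv w h) (hall w h)]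
  · have h1 := Place.card_below_mul h₀
    rw [(Place.isUnramifiedOver_iff h₀).mp (hv w₀ h₀), one_mul,
      Place.inertiaDeg_eq_orderOf h₀ (hv w₀ h₀) (hall w₀ h₀)] at h1
    exact h1

/-- uniqueness of the Frobenius element -/
theorem frobenius_unique (w : Place k L) (hw : w.IsUnramifiedOver K)
    (σ τ : L ≃ₐ[K] L)
    (hσ : ∀ b ∈ w.ring,
      w.ring.valuation (σ b - b ^ Nat.card (IsLocalRing.ResidueField (w.below K).ring)) < 1)
    (hτ : ∀ b ∈ w.ring,
      w.ring.valuation (τ b - b ^ Nat.card (IsLocalRing.ResidueField (w.below K).ring)) < 1) :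
    σ = τ := by
  have h1 := Place.isArithFrobAt_of (v := w.below K) rfl hσ
  have h2 := Place.isArithFrobAt_of (v := w.below K) rfl hτ
  have h3 := h1.mul_inv_mem_inertia h2
  rw [Place.inertia_eq_bot rfl hw, Subgroup.mem_bot] at h3
  exact mul_inv_eq_one.mp h3

end galois

end Pool.Agent.helper90.Zp
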