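import Pool.Agent.helper41.Zp.Below

/-!
The integral closure of the local ring of a place in a finite separable extension, its prime
ideals and the places above the given place.
-/

open scoped Polynomial WithZero

namespace Pool.Agent.helper90.Zp

variable {k K L : Type*} [Field k] [Field K] [Field L] [Algebra k K] [Algebra k L] [Algebra K L]
  [IsScalarTower k K L]

section incl

variable [Algebra.IsAlgebraic K L] {v : Place k K} {w : Place k L} (h : w.below K = v)

include h in
theorem Place.mem_ring_of_isIntegral {x : L} (hx : IsIntegral v.ring x) : x ∈ w.ring := by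
  let f : v.ring →+* w.ring := ((algebraMap K L).comp (algebraMap v.ring K)).codRestrict
    w.ring.toSubring (fun a => (Place.mem_ring_of_below_eq h).mpr a.2)
  obtain ⟨P, hP, hPx⟩ := hx
  have hx' : IsIntegral w.ring x := by
    refine ⟨P.map f, hP.map f, ?_⟩
    rw [Polynomial.eval₂_map]
    exact hPx
  obtain ⟨y, hy⟩ := IsIntegrallyClosed.isIntegral_iff.mp hx'
  rw [← hy]
  exact y.2

/-- the inclusion of the integral closure in the valuation ring -/
def Place.incl : integralClosure v.ring L →+* w.ring :=
  (integralClosure v.ring L).val.toRingHom.codRestrict w.ring.toSubring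
    (fun b => Place.mem_ring_of_isIntegral h b.2)

@[simp] theorem Place.coe_incl (b : integralClosure v.ring L) :
    ((Place.incl h b : w.ring) : L) = b := rfl

/-- the prime ideal of the integral closure attached to a place above `v` -/
def Place.primeOf : Ideal (integralClosure v.ring L) :=
  (IsLocalRing.maximalIdeal w.ring).comap (Place.incl h)

instance Place.primeOf_isPrime : (Place.primeOf h).IsPrime := Ideal.IsPrime.comap _

theorem Place.mem_primeOf {b : integralClosure v.ring L} :
    b ∈ Place.primeOf h ↔ w.ring.valuation (b : L) < 1 := by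
  rw [Place.primeOf, Ideal.mem_comap, w.ring.valuation_lt_one_iff]
  rfl

instance Place.primeOf_liesOver :
    (Place.primeOf h).LiesOver (IsLocalRing.maximalIdeal v.ring) := by
  constructor
  ext a
  rw [Ideal.mem_comap, Place.mem_primeOf, v.ring.valuation_lt_one_iff]
  exact (Place.valuation_lt_one_of_below h).symm

instance Place.primeOf_isMaximal : (Place.primeOf h).IsMaximal :=
  Ideal.IsMaximal.of_liesOver_isMaximal (Place.primeOf h) (IsLocalRing.maximalIdeal v.ring)

end incl

theorem exists_notMem_mul_eq {B : Type*} [CommRing B] [IsDedekindDomain B]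
    (P : Ideal B) [P.IsPrime] (hP : P ≠ ⊥) (a b : B) :
    ∃ s e : B, s ∉ P ∧ (a * e = b * s ∨ b * e = a * s) := by
  have hdvr : IsDiscreteValuationRing (Localization.AtPrime P) :=
    IsLocalization.AtPrime.isDiscreteValuationRing_of_dedekind_domain B hP _
  have hinj : Function.Injective (algebraMap B (Localization.AtPrime P)) :=
    IsLocalization.injective _ P.primeCompl_le_nonZeroDivisors
  obtain ⟨c, hc⟩ := ValuationRing.cond (algebraMap B (Localization.AtPrime P) a)
    (algebraMap B (Localization.AtPrime P) b)
  obtain ⟨e, s, rfl⟩ := IsLocalization.exists_mk'_eq P.primeCompl c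
  rcases hc with hc | hc
  · rw [IsLocalization.mul_mk'_eq_mk'_of_mul, IsLocalization.mk'_eq_iff_eq_mul, ← map_mul] at hc
    exact ⟨s, e, s.2, Or.inl (hinj hc)⟩
  · rw [IsLocalization.mul_mk'_eq_mk'_of_mul, IsLocalization.mk'_eq_iff_eq_mul, ← map_mul] at hc
    exact ⟨s, e, s.2, Or.inr (hinj hc)⟩

section sep

variable [IsFunctionField k K] [FiniteDimensional K L] [Algebra.IsSeparable K L]

instance (v : Place k K) : IsDedekindDomain (integralClosure v.ring L) :=
  integralClosure.isDedekindDomain v.ring K L

instance (v : Place k K) : Module.Finite v.ring (integralClosure v.ring L) :=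
  IsIntegralClosure.finite v.ring K L (integralClosure v.ring L)

instance (v : Place k K) : IsFractionRing (integralClosure v.ring L) L :=
  integralClosure.isFractionRing_of_finite_extension K L

instance (v : Place k K) : FaithfulSMul v.ring (integralClosure v.ring L) := by
  rw [faithfulSMul_iff_algebraMap_injective]
  intro a b hab
  have h1 : algebraMap K L a = algebraMap K L b := congrArg Subtype.val hab
  exact Subtype.ext ((algebraMap K L).injective h1)

variable {v : Place k K} {w : Place k L} (h : w.below K = v)

theorem Place.maximalIdeal_ne_bot (v : Place k K) : IsLocalRing.maximalIdeal v.ring ≠ ⊥ :=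
  IsDiscreteValuationRing.not_a_field v.ring

include h in
theorem Place.primeOf_ne_bot : Place.primeOf h ≠ ⊥ :=
  Ideal.ne_bot_of_liesOver_of_ne_bot v.maximalIdeal_ne_bot _

include h in
theorem Place.exists_div_eq (x : L) (hx : x ∈ w.ring) :
    ∃ b c : integralClosure v.ring L, c ∉ Place.primeOf h ∧ x * c = b := by
  obtain ⟨a, b, hb, hab⟩ := IsFractionRing.div_surjective (integralClosure v.ring L) x
  have hb0 : b ≠ 0 := nonZeroDivisors.ne_zero hb
  have hbL : (b : L) ≠ 0 := by simpa using hb0
  have hab' : (a : L) / b = x := hab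
  obtain ⟨s, e, hs, hc⟩ := exists_notMem_mul_eq (Place.primeOf h) (Place.primeOf_ne_bot h) a b
  have hsL : (s : L) ≠ 0 := by
    intro h0
    apply hs
    have : s = 0 := by simpa using h0
    rw [this]; exact zero_mem _
  rcases hc with hc | hc
  · -- a * e = b * s, so `x = a / b = s / e`
    have hcL : (a : L) * e = b * s := by
      have := congrArg (Subtype.val) hc
      simpa using this
    have hxe : x * e = s := by
      rw [← hab', div_mul_eq_mul_div, hcL, mul_div_cancel_left₀ _ hbL]
    refine ⟨s, e, ?_, hxe⟩
    intro he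
    apply hs
    rw [Place.mem_primeOf] at he ⊢
    rw [← hxe, map_mul]
    calc w.ring.valuation x * w.ring.valuation (e : L) ≤ 1 * w.ring.valuation (e : L) := by
          gcongr
          exact (w.ring.valuation_le_one_iff x).mpr hx
      _ < 1 := by rw [one_mul]; exact he
  · have hcL : (b : L) * e = a * s := by
      have := congrArg (Subtype.val) hc
      simpa using this
    refine ⟨e, s, hs, ?_⟩
    rw [← hab', div_mul_eq_mul_div, ← hcL, mul_div_cancel_left₀ _ hbL]

theorem Place.eq_of_primeOf_eq {w' : Place k L} (h' : w'.below K = v)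
    (hP : Place.primeOf h = Place.primeOf h') : w = w' := by
  have key : ∀ {w₁ w₂ : Place k L} (h₁ : w₁.below K = v) (h₂ : w₂.below K = v),
      Place.primeOf h₁ = Place.primeOf h₂ → w₁.ring ≤ w₂.ring := by
    intro w₁ w₂ h₁ h₂ hP x hx
    obtain ⟨b, c, hc, hxc⟩ := Place.exists_div_eq h₁ x hx
    rw [hP, Place.mem_primeOf, not_lt] at hc
    have hc1 : w₂.ring.valuation (c : L) = 1 :=
      le_antisymm ((w₂.ring.valuation_le_one_iff _).mpr (Place.mem_ring_of_isIntegral h₂ c.2)) hc
    rw [← w₂.ring.valuation_le_one_iff]
    have : w₂.ring.valuation x * w₂.ring.valuation (c : L) = w₂.ring.valuation (b : L) := by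
      rw [← map_mul, hxc]
    rw [hc1, mul_one] at this
    rw [this]
    exact (w₂.ring.valuation_le_one_iff _).mpr (Place.mem_ring_of_isIntegral h₂ b.2)
  exact Place.ext' (le_antisymm (key h h' hP) (key h' h hP.symm))

theorem Place.exists_primeOf_eq (v : Place k K) (P : Ideal (integralClosure v.ring L)) [P.IsPrime]
    [hP : P.LiesOver (IsLocalRing.maximalIdeal v.ring)] :
    ∃ (w : Place k L) (h : w.below K = v), Place.primeOf h = P := by
  obtain ⟨W, hBW, hPW⟩ := Ideal.image_subset_nonunits_valuationSubring
    (A := (integralClosure v.ring L).toSubring) P (Ideal.IsPrime.ne_top inferInstance)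
  have hmem : ∀ a : K, a ∈ v.ring → algebraMap K L a ∈ W := by
    intro a ha
    apply hBW
    exact (integralClosure v.ring L).algebraMap_mem ⟨a, ha⟩
  have halg : ∀ a : k, algebraMap k L a ∈ W := by
    intro a
    rw [IsScalarTower.algebraMap_apply k K L]
    exact hmem _ (v.algebraMap_mem a)
  obtain ⟨π, hπ0, hπ1, -⟩ := v.exists_uniformizer_aux
  have hπmem : π ∈ v.ring := (v.ring.valuation_le_one_iff _).mp hπ1.le
  have hπP : algebraMap v.ring (integralClosure v.ring L) ⟨π, hπmem⟩ ∈ P := by
    have : (⟨π, hπmem⟩ : v.ring) ∈ IsLocalRing.maximalIdeal v.ring := by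
      rw [v.ring.valuation_lt_one_iff]; exact hπ1
    rw [hP.over] at this
    exact this
  have hπW : algebraMap K L π ∈ W.nonunits := hPW ⟨_, hπP, rfl⟩
  have hne : W ≠ ⊤ := by
    rintro rfl
    rw [ValuationSubring.mem_nonunits_iff] at hπW
    have h1 : (algebraMap K L π)⁻¹ ∈ (⊤ : ValuationSubring L) := trivial
    rw [← ValuationSubring.valuation_le_one_iff, map_inv₀] at h1
    have h2 : (⊤ : ValuationSubring L).valuation (algebraMap K L π) ≠ 0 := by
      rw [ne_eq, map_eq_zero, map_eq_zero]; exact hπ0
    exact absurd h1 (not_le.mpr ((one_lt_inv₀ (zero_lt_iff.mpr h2)).mpr hπW))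
  let w : Place k L := ⟨W, halg, hne⟩
  have h : w.below K = v := by
    symm
    apply Place.eq_of_le
    intro a ha
    exact hmem a ha
  refine ⟨w, h, ?_⟩
  symm
  have hmax : P.IsMaximal :=
    Ideal.IsMaximal.of_liesOver_isMaximal P (IsLocalRing.maximalIdeal v.ring)
  apply hmax.eq_of_le (Place.primeOf_isPrime h).ne_top
  intro b hb
  rw [Place.mem_primeOf]
  exact hPW ⟨b, hb, rfl⟩

/-- the places above `v` are the primes above the maximal ideal -/
noncomputable def Place.primesEquiv (v : Place k K) :
    {w : Place k L // w.below K = v} ≃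
      (IsLocalRing.maximalIdeal v.ring).primesOver (integralClosure v.ring L) :=
  Equiv.ofBijective (fun w => ⟨Place.primeOf w.2, inferInstance, inferInstance⟩) <| by
    constructor
    · rintro ⟨w, h⟩ ⟨w', h'⟩ heq
      have := congrArg Subtype.val heq
      exact Subtype.ext (Place.eq_of_primeOf_eq h h' this)
    · rintro ⟨P, hP1, hP2⟩
      obtain ⟨w, h, hP⟩ := Place.exists_primeOf_eq v P
      exact ⟨⟨w, h⟩, Subtype.ext hP⟩

include h in
theorem Place.residue_incl_surjective :
    Function.Surjective ((IsLocalRing.residue w.ring).comp (Place.incl h)) := by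
  intro y
  obtain ⟨x, rfl⟩ := IsLocalRing.residue_surjective y
  obtain ⟨b, c, hc, hxc⟩ := Place.exists_div_eq h x x.2
  obtain ⟨c', hc'⟩ : ∃ c', c * c' - 1 ∈ Place.primeOf h := by
    have := (Place.primeOf_isMaximal h).exists_inv hc
    obtain ⟨y, hy⟩ := this
    obtain ⟨i, hi, hyi⟩ := hy
    refine ⟨y, ?_⟩
    have : c * y - 1 = - i := by rw [← hyi]; ring
    rw [this]
    exact neg_mem hi
  refine ⟨b * c', ?_⟩
  have hxc' : x * Place.incl h c = Place.incl h b := Subtype.ext hxc
  rw [RingHom.comp_apply, map_mul, ← hxc']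
  have h1 : Place.incl h (c * c' - 1) ∈ IsLocalRing.maximalIdeal w.ring := hc'
  have h2 : IsLocalRing.residue w.ring (Place.incl h (c * c' - 1)) = 0 :=
    (IsLocalRing.residue_eq_zero_iff _).mpr h1
  rw [map_sub, map_sub, map_one, map_one, sub_eq_zero, map_mul, map_mul] at h2
  rw [map_mul, map_mul, mul_assoc, h2, mul_one]

/-- the residue field of a place above `v` -/
noncomputable def Place.quotEquiv :
    (integralClosure v.ring L ⧸ Place.primeOf h) ≃+* IsLocalRing.ResidueField w.ring :=
  (Ideal.quotEquivOfEq (by
    ext b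
    rw [RingHom.mem_ker, RingHom.comp_apply, IsLocalRing.residue_eq_zero_iff]; rfl)).trans
  (RingHom.quotientKerEquivOfSurjective (Place.residue_incl_surjective h))

end sep

section ram

theorem ramificationIdx_eq_one_iff' {A B : Type*} [CommRing A] [CommRing B] [Algebra A B]
    (P : Ideal B) [P.IsPrime] : P.ramificationIdx A = 1 ↔
      ∀ x ∈ P, ∃ s ∉ P, s * x ∈ (P.under A).map (algebraMap A B) := by
  have hle : (P.under A).map (algebraMap A B) ≤ P := Ideal.map_comap_le
  rw [Ideal.ramificationIdx_def, ENat.toNat_eq_iff_eq_natCast, Nat.cast_one,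
    Module.length_eq_one_iff, isSimpleModule_iff_isCoatom, ← Ideal.isMaximal_def,
    IsLocalRing.isMaximal_iff, IsScalarTower.algebraMap_eq A B (Localization.AtPrime P),
    ← Ideal.map_map, ← Localization.AtPrime.map_eq_maximalIdeal]
  constructor
  · intro heq x hx
    have h1 : algebraMap B (Localization.AtPrime P) x ∈
        ((P.under A).map (algebraMap A B)).map (algebraMap B (Localization.AtPrime P)) := by
      rw [heq]; exact Ideal.mem_map_of_mem _ hx
    rw [IsLocalization.algebraMap_mem_map_algebraMap_iff P.primeCompl] at h1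
    obtain ⟨s, hs, hsx⟩ := h1
    exact ⟨s, hs, hsx⟩
  · intro hall
    apply le_antisymm (Ideal.map_mono hle)
    rw [Ideal.map_le_iff_le_comap]
    intro x hx
    rw [Ideal.mem_comap, IsLocalization.algebraMap_mem_map_algebraMap_iff P.primeCompl]
    obtain ⟨s, hs, hsx⟩ := hall x hx
    exact ⟨s, hs, hsx⟩

variable [IsFunctionField k K] [FiniteDimensional K L] [Algebra.IsSeparable K L]
  {v : Place k K} {w : Place k L} (h : w.below K = v)

theorem Place.isUnramifiedOver_iff :
    w.IsUnramifiedOver K ↔ (Place.primeOf h).ramificationIdx v.ring = 1 := by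
  have hover : (Place.primeOf h).under v.ring = IsLocalRing.maximalIdeal v.ring :=
    ((Place.primeOf_liesOver h).over).symm
  rw [ramificationIdx_eq_one_iff', hover]
  constructor
  · intro hu x hx
    rw [Place.mem_primeOf] at hx
    by_cases hx0 : x = 0
    · refine ⟨1, fun h1 => (Place.primeOf_isPrime h).ne_top ((Ideal.eq_top_iff_one _).mpr h1), ?_⟩
      rw [hx0, mul_zero]; exact zero_mem _
    have hxL : (x : L) ≠ 0 := by simpa using hx0
    obtain ⟨y, hy1, hxy⟩ := hu x hx
    have hy0 : algebraMap K L y ≠ 0 := by
      intro h0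
      rw [h0, map_zero, le_zero_iff, map_eq_zero] at hxy
      exact hxL hxy
    have hVy : w.ring.valuation (algebraMap K L y) ≠ 0 := by rwa [ne_eq, map_eq_zero]
    have hdiv : (x : L) / algebraMap K L y ∈ w.ring := by
      rw [← w.ring.valuation_le_one_iff, map_div₀]
      exact div_le_one_of_le₀ hxy zero_le
    obtain ⟨b, c, hc, hbc⟩ := Place.exists_div_eq h _ hdiv
    refine ⟨c, hc, ?_⟩
    have hyv : v.ring.valuation y < 1 := (Place.valuation_lt_one_of_below h).mp hy1
    have hymem : y ∈ v.ring := (v.ring.valuation_le_one_iff _).mp hyv.le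
    have heq : c * x = b * algebraMap v.ring (integralClosure v.ring L) ⟨y, hymem⟩ := by
      apply Subtype.ext
      change (c : L) * x = b * algebraMap K L y
      rw [← hbc]
      field_simp
    rw [heq]
    apply Ideal.mul_mem_left
    apply Ideal.mem_map_of_mem
    rw [v.ring.valuation_lt_one_iff]
    exact hyv
  · intro hall x hx
    have hxmem : x ∈ w.ring := (w.ring.valuation_le_one_iff _).mp hx.le
    obtain ⟨b, c, hc, hxc⟩ := Place.exists_div_eq h x hxmem
    have hval1 : ∀ s : integralClosure v.ring L, s ∉ Place.primeOf h →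
        w.ring.valuation (s : L) = 1 := by
      intro s hs
      rw [Place.mem_primeOf, not_lt] at hs
      exact le_antisymm ((w.ring.valuation_le_one_iff _).mpr
        (Place.mem_ring_of_isIntegral h s.2)) hs
    have hb : w.ring.valuation x = w.ring.valuation (b : L) := by
      rw [← hxc, map_mul, hval1 c hc, mul_one]
    have hbP : b ∈ Place.primeOf h := by rw [Place.mem_primeOf, ← hb]; exact hx
    obtain ⟨s, hs, hsb⟩ := hall b hbP
    obtain ⟨π, hπ0, hπ1, hπ2⟩ := v.exists_uniformizer_aux
    have hπmem : π ∈ v.ring := (v.ring.valuation_le_one_iff _).mp hπ1.le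
    refine ⟨π, (Place.valuation_lt_one_of_below h).mpr hπ1, ?_⟩
    have hspan : IsLocalRing.maximalIdeal v.ring = Ideal.span {(⟨π, hπmem⟩ : v.ring)} := by
      apply le_antisymm
      · intro a ha
        rw [v.ring.valuation_lt_one_iff] at ha
        rw [Ideal.mem_span_singleton]
        have hVπ : v.ring.valuation π ≠ 0 := by rwa [ne_eq, map_eq_zero]
        have hmem : (a : K) / π ∈ v.ring := by
          rw [← v.ring.valuation_le_one_iff, map_div₀]
          exact div_le_one_of_le₀ (hπ2 _ ha) zero_le
        refine ⟨⟨_, hmem⟩, Subtype.ext ?_⟩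
        change (a : K) = π * (a / π)
        field_simp
      · rw [Ideal.span_singleton_le_iff_mem, v.ring.valuation_lt_one_iff]
        exact hπ1
    rw [hspan, Ideal.map_span, Set.image_singleton, Ideal.mem_span_singleton] at hsb
    obtain ⟨b', hb'⟩ := hsb
    have hb'L : (s : L) * b = algebraMap K L π * b' := congrArg Subtype.val hb'
    rw [hb]
    have h1 : w.ring.valuation (b : L) = w.ring.valuation ((s : L) * b) := by
      rw [map_mul, hval1 s hs, one_mul]
    rw [h1, hb'L, map_mul]
    exact mul_le_of_le_one_right zero_le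
      ((w.ring.valuation_le_one_iff _).mpr (Place.mem_ring_of_isIntegral h b'.2))

end ram

end Pool.Agent.helper90.Zp
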