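import Pool.Agent.helper41.Zp.Galois

/-!
Ramification index and valuations; degrees above a ramified place in a cyclic p-extension.
-/

open scoped Polynomial WithZero Pointwise

namespace Pool.Agent.helper90.Zp

theorem valuation_eq_of_isEquiv {F : Type*} [Field F] {v w : Valuation F ℤᵐ⁰}
    (h : v.IsEquiv w) (hv : ∃ π, v π = WithZero.exp (-1 : ℤ))
    (hw : ∃ π, w π = WithZero.exp (-1 : ℤ)) : v = w := by
  obtain ⟨π, hπ⟩ := hv
  obtain ⟨ϖ, hϖ⟩ := hw
  have hlt : ∀ {γ : ℤᵐ⁰}, γ < 1 → γ ≤ WithZero.exp (-1 : ℤ) := by
    intro γ hγ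
    by_cases h0 : γ = 0
    · rw [h0]; exact zero_le
    · rw [← WithZero.exp_log h0, ← WithZero.exp_zero, WithZero.exp_lt_exp] at hγ
      rw [← WithZero.exp_log h0, WithZero.exp_le_exp]
      omega
  have he1 : (WithZero.exp (-1 : ℤ)) < (1 : ℤᵐ⁰) := by
    rw [← WithZero.exp_zero, WithZero.exp_lt_exp]; norm_num
  have h1 : w π ≤ WithZero.exp (-1 : ℤ) := hlt (h.lt_one_iff_lt_one.mp (by rw [hπ]; exact he1))
  have h2 : v ϖ ≤ WithZero.exp (-1 : ℤ) := hlt (h.lt_one_iff_lt_one.mpr (by rw [hϖ]; exact he1))
  have h3 : w ϖ ≤ w π := by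
    rw [← h ϖ π, hπ]; exact h2
  have hwπ : w π = WithZero.exp (-1 : ℤ) := le_antisymm h1 (by rw [← hϖ]; exact h3)
  have hπ0 : π ≠ 0 := by
    rintro rfl
    rw [map_zero] at hπ
    exact WithZero.exp_ne_zero hπ.symm
  ext x
  by_cases hx : x = 0
  · simp [hx]
  have hvx : v x ≠ 0 := by rwa [ne_eq, map_eq_zero]
  set n := WithZero.log (v x) with hn
  have hvx' : v x = WithZero.exp n := (WithZero.exp_log hvx).symm
  have h4 : v (x * π ^ n) = 1 := by
    rw [map_mul, map_zpow₀, hvx', hπ, ← WithZero.exp_zsmul, ← WithZero.exp_add]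
    simp
  have h5 : w (x * π ^ n) = 1 := h.eq_one_iff_eq_one.mp h4
  rw [map_mul, map_zpow₀, hwπ, ← WithZero.exp_zsmul] at h5
  rw [hvx']
  have h6 : w x = WithZero.exp n := by
    have h7 : WithZero.exp (n • (-1 : ℤ)) * WithZero.exp n = (1 : ℤᵐ⁰) := by
      rw [← WithZero.exp_add]; simp
    calc w x = w x * (WithZero.exp (n • (-1 : ℤ)) * WithZero.exp n) := by rw [h7, mul_one]
      _ = (w x * WithZero.exp (n • (-1 : ℤ))) * WithZero.exp n := by rw [mul_assoc]
      _ = WithZero.exp n := by rw [h5, one_mul]
  rw [h6]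

variable {k K L : Type*} [Field k] [Field K] [Field L] [Algebra k K] [Algebra k L] [Algebra K L]
  [IsScalarTower k K L]

section ramification

variable [IsFunctionField k K] [FiniteDimensional K L] [Algebra.IsSeparable K L]

instance (v : Place k K) : Module.IsTorsionFree v.ring (integralClosure v.ring L) := by
  rw [Module.isTorsionFree_iff_faithfulSMul]
  infer_instance

variable {v : Place k K} {w : Place k L} (h : w.below K = v)

/-- the height one prime attached to a place above `v` -/
def Place.heightOne : IsDedekindDomain.HeightOneSpectrum (integralClosure v.ring L) :=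
  ⟨Place.primeOf h, inferInstance, Place.primeOf_ne_bot h⟩

theorem Place.val_eq_valuation [IsFunctionField k L] :
    w.val = (Place.heightOne h).valuation L := by
  apply valuation_eq_of_isEquiv _ w.exists_val_eq
    (IsDedekindDomain.HeightOneSpectrum.valuation_exists_uniformizer L _)
  have hle : ∀ b : integralClosure v.ring L, (Place.heightOne h).valuation L (b : L) ≤ 1 :=
    fun b => IsDedekindDomain.HeightOneSpectrum.valuation_le_one _ b
  have hlt : ∀ b : integralClosure v.ring L,
      (Place.heightOne h).valuation L (b : L) < 1 ↔ b ∈ Place.primeOf h :=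
    fun b => IsDedekindDomain.HeightOneSpectrum.valuation_lt_one_iff_mem _ b
  have h1 : ∀ x ∈ w.ring, (Place.heightOne h).valuation L x ≤ 1 := by
    intro x hx
    obtain ⟨b, c, hc, hxc⟩ := Place.exists_div_eq h x hx
    have hc1 : (Place.heightOne h).valuation L (c : L) = 1 :=
      le_antisymm (hle c) (not_lt.mp fun h2 => hc ((hlt c).mp h2))
    have h2 : (Place.heightOne h).valuation L x * (Place.heightOne h).valuation L (c : L) =
        (Place.heightOne h).valuation L (b : L) := by
      rw [← map_mul, hxc]
    rw [hc1, mul_one] at h2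
    rw [h2]; exact hle b
  rw [Valuation.isEquiv_iff_val_le_one]
  intro x
  rw [w.val_le_one_iff]
  constructor
  · exact h1 x
  · intro hx
    by_contra hxw
    have hx0 : x ≠ 0 := by rintro rfl; exact hxw (zero_mem _)
    have hinv : x⁻¹ ∈ w.ring := (w.ring.mem_or_inv_mem x).resolve_left hxw
    obtain ⟨b, c, hc, hxc⟩ := Place.exists_div_eq h _ hinv
    have hc1 : (Place.heightOne h).valuation L (c : L) = 1 :=
      le_antisymm (hle c) (not_lt.mp fun h2 => hc ((hlt c).mp h2))
    have hwc1 : w.ring.valuation (c : L) = 1 := by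
      rw [Place.mem_primeOf, not_lt] at hc
      exact le_antisymm ((w.ring.valuation_le_one_iff _).mpr
        (Place.mem_ring_of_isIntegral h c.2)) hc
    have hb : b ∈ Place.primeOf h := by
      rw [Place.mem_primeOf, ← hxc, map_mul, hwc1, mul_one,
        valuation_lt_one_iff_inv _ (inv_ne_zero hx0), inv_inv, w.ring.valuation_le_one_iff]
      exact hxw
    have h3 : (Place.heightOne h).valuation L x⁻¹ < 1 := by
      have h4 : (Place.heightOne h).valuation L x⁻¹ * (Place.heightOne h).valuation L (c : L) =
          (Place.heightOne h).valuation L (b : L) := by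
        rw [← map_mul, hxc]
      rw [hc1, mul_one] at h4
      rw [h4]; exact (hlt b).mpr hb
    rw [map_inv₀] at h3
    have h5 : (Place.heightOne h).valuation L x ≠ 0 := by rwa [ne_eq, map_eq_zero]
    exact absurd hx (not_le.mpr ((inv_lt_one₀ (zero_lt_iff.mpr h5)).mp h3))

theorem Place.val_algebraMap [IsFunctionField k L] (x : K) :
    w.val (algebraMap K L x) = v.val x ^ (Place.primeOf h).ramificationIdx v.ring := by
  have : (Place.heightOne h).asIdeal.LiesOver (IsDiscreteValuationRing.maximalIdeal v.ring).asIdeal :=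
    Place.primeOf_liesOver h
  have h1 := IsDedekindDomain.HeightOneSpectrum.valuation_liesOver L
    (IsDiscreteValuationRing.maximalIdeal v.ring) (Place.heightOne h) x
  rw [Place.val_eq_valuation h, ← h1, Place.val]
  congr 1
  exact (Ideal.ramificationIdx'_eq_ramificationIdx (IsLocalRing.maximalIdeal v.ring)
    (Place.primeOf h) v.maximalIdeal_ne_bot)

end ramification

theorem subgroup_le_of_card_dvd {G : Type*} [Group G] [Finite G] [IsCyclic G] {I H : Subgroup G}
    (hd : Nat.card I ∣ Nat.card H) : I ≤ H := by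
  classical
  have : Fintype G := Fintype.ofFinite G
  intro x hx
  have hm : 0 < Nat.card H := Nat.card_pos
  have hxI : x ^ Nat.card H = 1 := by
    obtain ⟨c, hc⟩ := hd
    have h1 : (⟨x, hx⟩ : I) ^ Nat.card I = 1 := pow_card_eq_one'
    have h2 : x ^ Nat.card I = 1 := congrArg Subtype.val h1
    rw [hc, pow_mul, h2, one_pow]
  have hle := IsCyclic.card_pow_eq_one_le (α := G) hm
  have hsub : (Finset.univ.filter fun a : G => a ∈ H) ⊆
      (Finset.univ.filter fun a : G => a ^ Nat.card H = 1) := by
    intro a ha
    rw [Finset.mem_filter] at ha ⊢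
    refine ⟨Finset.mem_univ _, ?_⟩
    have h1 : (⟨a, ha.2⟩ : H) ^ Nat.card H = 1 := pow_card_eq_one'
    exact congrArg Subtype.val h1
  have hcard : (Finset.univ.filter fun a : G => a ∈ H).card = Nat.card H := by
    rw [Nat.card_eq_fintype_card, ← Fintype.card_subtype]
  have heq := Finset.eq_of_subset_of_card_le hsub (by rw [hcard]; exact hle)
  have hx2 : x ∈ (Finset.univ.filter fun a : G => a ^ Nat.card H = 1) := by
    rw [Finset.mem_filter]; exact ⟨Finset.mem_univ _, hxI⟩
  rw [← heq, Finset.mem_filter] at hx2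
  exact hx2.2

section inertia

variable [IsFunctionField k K] [FiniteDimensional K L] [IsGalois K L]
  {v : Place k K} {w : Place k L} (h : w.below K = v)

theorem Place.mem_inertia_iff {σ : L ≃ₐ[K] L} :
    σ ∈ (Place.primeOf h).inertia (L ≃ₐ[K] L) ↔ ∀ x ∈ w.ring, w.ring.valuation (σ x - x) < 1 := by
  constructor
  · intro hσ x hx
    have key : ∀ b : integralClosure v.ring L, w.ring.valuation (σ b - (b : L)) < 1 := by
      intro b
      have h1 := hσ b
      rw [Submodule.mem_toAddSubgroup, Place.mem_primeOf] at h1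
      exact h1
    have hle : ∀ b : integralClosure v.ring L, w.ring.valuation (b : L) ≤ 1 := fun b =>
      (w.ring.valuation_le_one_iff _).mpr (Place.mem_ring_of_isIntegral h b.2)
    obtain ⟨b, c, hc, hxc⟩ := Place.exists_div_eq h x hx
    have hc1 : w.ring.valuation (c : L) = 1 := by
      rw [Place.mem_primeOf, not_lt] at hc
      exact le_antisymm (hle c) hc
    have hσc1 : w.ring.valuation (σ c) = 1 := by
      have h3 : (σ c : L) = (σ c - (c : L)) + (c : L) := by ring
      rw [h3, Valuation.map_add_eq_of_lt_right, hc1]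
      rw [hc1]; exact key c
    have heq : (σ x - x) * (σ c * (c : L)) =
        (σ b - (b : L)) * (c : L) - (b : L) * (σ c - (c : L)) := by
      rw [← hxc, map_mul]
      ring
    have h4 : w.ring.valuation ((σ x - x) * (σ c * (c : L))) < 1 := by
      rw [heq]
      apply Valuation.map_sub_lt
      · rw [map_mul, hc1, mul_one]; exact key b
      · rw [map_mul]
        calc w.ring.valuation (b : L) * w.ring.valuation (σ c - (c : L))
            ≤ 1 * w.ring.valuation (σ c - (c : L)) := by
              gcongr
              exact hle b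
          _ < 1 := by rw [one_mul]; exact key c
    rwa [map_mul, map_mul, hσc1, hc1, mul_one, mul_one] at h4
  · intro hσ b
    rw [Submodule.mem_toAddSubgroup, Place.mem_primeOf]
    exact hσ b (Place.mem_ring_of_isIntegral h b.2)

end inertia

section tower

variable {M : Type*} [Field M] [Algebra k M] [Algebra K M] [Algebra M L] [IsScalarTower k K M]
  [IsScalarTower k M L] [IsScalarTower K M L]
  [IsFunctionField k K] [IsFunctionField k M] [IsFunctionField k L]
  [FiniteDimensional K L] [FiniteDimensional K M] [FiniteDimensional M L]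
  [Algebra.IsSeparable K L] [Algebra.IsSeparable K M] [Algebra.IsSeparable M L]

theorem Place.ramificationIdx_mul {v : Place k K} {u : Place k M} {w : Place k L}
    (h₁ : u.below K = v) (h₂ : w.below M = u) (h : w.below K = v) :
    (Place.primeOf h).ramificationIdx v.ring =
      (Place.primeOf h₁).ramificationIdx v.ring * (Place.primeOf h₂).ramificationIdx u.ring := by
  obtain ⟨π, hπ⟩ := v.exists_val_eq
  have h3 := Place.val_algebraMap h π
  rw [IsScalarTower.algebraMap_apply K M L, Place.val_algebraMap h₂, Place.val_algebraMap h₁,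
    ← pow_mul, hπ, ← WithZero.exp_nsmul, ← WithZero.exp_nsmul, WithZero.exp_inj] at h3
  simp only [nsmul_eq_mul, mul_neg, mul_one, neg_inj] at h3
  exact_mod_cast h3.symm

end tower

theorem deg_le_of_ramified' {M : Type*} [Field M] [Algebra k M] [Algebra K M] [Algebra M L]
    [IsScalarTower k K M] [IsScalarTower k M L] [IsScalarTower K M L] [Finite k]
    [IsFunctionField k K] [IsFunctionField k M] [IsFunctionField k L]
    [FiniteDimensional K L] [FiniteDimensional K M] [FiniteDimensional M L]
    [IsGalois K L] [IsGalois K M] [IsGalois M L]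
    (p n : ℕ) [Fact p.Prime]
    (hcard : Nat.card (L ≃ₐ[K] L) = p ^ n) (hcyc : IsCyclic (L ≃ₐ[K] L)) (v : Place k K)
    (w₀ : Place k M) (hw₀ : w₀.below K = v) (hram : ¬ w₀.IsUnramifiedOver K)
    (w : Place k L) (hw : w.below K = v) :
    w.deg ≤ Module.finrank K M * v.deg := by
  set G := L ≃ₐ[K] L with hG
  set I : Subgroup G := (Place.primeOf hw).inertia (L ≃ₐ[K] L) with hI
  let φ : (L ≃ₐ[M] L) →* G := AlgEquiv.restrictScalarsHom K
  have hφ : Function.Injective φ := AlgEquiv.restrictScalars_injective K
  set H : Subgroup G := φ.range with hH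
  have hHcard : Nat.card H = Module.finrank M L := by
    rw [← IsGalois.card_aut_eq_finrank M L]
    exact (Nat.card_congr (Equiv.ofInjective φ hφ)).symm
  have hGcard : Nat.card G = Module.finrank K L := IsGalois.card_aut_eq_finrank K L
  set u : Place k M := w.below M with hu
  have hwu : w.below M = u := rfl
  have huv : u.below K = v := by rw [hu, Place.below_below, hw]
  have hcase := (Nat.dvd_prime_pow Fact.out).mp (hcard ▸ (Subgroup.card_subgroup_dvd_card I))
  obtain ⟨a, ha, hIa⟩ := hcase
  have hcase := (Nat.dvd_prime_pow Fact.out).mp (hcard ▸ (Subgroup.card_subgroup_dvd_card H))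
  obtain ⟨b, hb, hHb⟩ := hcase
  by_cases hab : a ≤ b
  · exfalso
    apply hram
    have hIH : I ≤ H := by
      apply subgroup_le_of_card_dvd
      rw [hIa, hHb]
      exact pow_dvd_pow p hab
    -- the inertia group in L / M is the same
    have hinertia : Nat.card ((Place.primeOf hwu).inertia (L ≃ₐ[M] L)) = Nat.card I := by
      apply Nat.card_congr
      refine Equiv.ofBijective (fun σ => ⟨φ σ.1, ?_⟩) ⟨?_, ?_⟩
      · rw [hI, Place.mem_inertia_iff hw]
        intro x hx
        exact (Place.mem_inertia_iff hwu).mp σ.2 x hx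
      · intro σ τ hστ
        exact Subtype.ext (hφ (congrArg Subtype.val hστ))
      · rintro ⟨τ, hτ⟩
        obtain ⟨σ, hσ⟩ := hIH hτ
        refine ⟨⟨σ, ?_⟩, Subtype.ext hσ⟩
        rw [Place.mem_inertia_iff hwu]
        intro x hx
        have h1 := (Place.mem_inertia_iff hw).mp hτ x hx
        rw [← hσ] at h1
        exact h1
    rw [Place.card_inertia hwu, hI, Place.card_inertia hw,
      Place.ramificationIdx_mul huv hwu hw] at hinertia
    have hpos : 0 < (Place.primeOf hwu).ramificationIdx u.ring :=
      Ideal.ramificationIdx_pos _ _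
    have h1 : (Place.primeOf huv).ramificationIdx v.ring = 1 := by
      have h2 : 1 * (Place.primeOf hwu).ramificationIdx u.ring =
        (Place.primeOf huv).ramificationIdx v.ring * (Place.primeOf hwu).ramificationIdx u.ring := by
        rw [one_mul]; exact hinertia
      exact (Nat.eq_of_mul_eq_mul_right hpos h2).symm
    rw [Place.isUnramifiedOver_iff hw₀, ← h1]
    exact Ideal.ramificationIdx_eq_of_isGaloisGroup (IsLocalRing.maximalIdeal v.ring)
      (Place.primeOf hw₀) (Place.primeOf huv) (M ≃ₐ[K] M)
  · rw [not_le] at hab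
    rw [Place.deg_eq_inertiaDeg_mul hw]
    apply Nat.mul_le_mul_right
    have h1 := Place.card_below_mul hw
    rw [← Place.card_inertia hw, ← hI, hGcard, ← Module.finrank_mul_finrank K M L, ← hHcard,
      hHb, hIa] at h1
    have hp : 1 < p := (Fact.out : p.Prime).one_lt
    have h2 : p ^ b ≤ p ^ a := Nat.pow_le_pow_right hp.le hab.le
    have h3 : 0 < Nat.card {w : Place k L // w.below K = v} := by
      have : Finite {w : Place k L // w.below K = v} := (finite_below v)
      have : Nonempty {w : Place k L // w.below K = v} := ⟨⟨w, hw⟩⟩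
      exact Nat.card_pos
    have h4 : 0 < p ^ b := pow_pos (by omega) b
    have h5 : (Place.primeOf hw).inertiaDeg v.ring * p ^ b ≤ Module.finrank K M * p ^ b := by
      rw [← h1]
      calc (Place.primeOf hw).inertiaDeg v.ring * p ^ b
          ≤ (Place.primeOf hw).inertiaDeg v.ring * p ^ a := Nat.mul_le_mul_left _ h2
        _ = 1 * (p ^ a * (Place.primeOf hw).inertiaDeg v.ring) := by ring
        _ ≤ _ := Nat.mul_le_mul_right _ h3
    exact Nat.le_of_mul_le_mul_right h5 h4

/-- Degrees above a ramified place stay bounded in a cyclic extension of prime power degree. -/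
theorem deg_le_of_ramified [Finite k] [IsFunctionField k K] [IsFunctionField k L]
    [FiniteDimensional K L] (p n : ℕ) [Fact p.Prime] [IsGalois K L]
    (hcard : Nat.card (L ≃ₐ[K] L) = p ^ n) (hcyc : IsCyclic (L ≃ₐ[K] L))
    (M : IntermediateField K L) [IsFunctionField k M] (v : Place k K)
    (w₀ : Place k M) (hw₀ : w₀.below K = v) (hram : ¬ w₀.IsUnramifiedOver K)
    (w : Place k L) (hw : w.below K = v) :
    w.deg ≤ Module.finrank K M * v.deg := by
  have hab : IsAbelianGalois K L := IsAbelianGalois.of_isCyclic K L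
  have hsc : IsScalarTower k M L := IsScalarTower.of_algebraMap_eq fun a => rfl
  have hM : IsGalois K M := inferInstance
  exact deg_le_of_ramified' p n hcard hcyc v w₀ hw₀ hram w hw

end Pool.Agent.helper90.Zp
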