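import Pool.Agent.helper90.Zp.Finite
import Pool.Agent.helper41.Zp.Ramif

/-!
Functions regular outside a given set of places with trace one.
-/

open scoped Polynomial WithZero Pointwise

set_option linter.unusedSectionVars false

namespace Pool.Agent.helper90.Zp

variable {k K L : Type*} [Field k] [Field K] [Field L] [Algebra k K] [Algebra k L] [Algebra K L]
  [IsScalarTower k K L]

section comap

/-- The place `w ∘ σ`: its valuation ring consists of the `x` with `σ x ∈ w`. -/
def Place.comap (w : Place k L) (σ : L ≃ₐ[K] L) : Place k L where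
  ring := w.ring.comap (σ : L →+* L)
  algebraMap_mem a := by
    rw [ValuationSubring.mem_comap, IsScalarTower.algebraMap_apply k K L]
    change σ (algebraMap K L (algebraMap k K a)) ∈ w.ring
    rw [σ.commutes, ← IsScalarTower.algebraMap_apply]
    exact w.algebraMap_mem a
  ne_top := by
    intro h
    apply w.ne_top
    rw [eq_top_iff]
    intro x _
    have h1 : σ.symm x ∈ w.ring.comap (σ : L →+* L) := by rw [h]; trivial
    rw [ValuationSubring.mem_comap] at h1
    have h2 : (σ : L →+* L) (σ.symm x) = x := σ.apply_symm_apply x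
    rwa [h2] at h1

theorem Place.mem_comap_ring {w : Place k L} {σ : L ≃ₐ[K] L} {x : L} :
    x ∈ (w.comap σ).ring ↔ σ x ∈ w.ring := Iff.rfl

theorem Place.valuation_comap_le_one {w : Place k L} {σ : L ≃ₐ[K] L} {x : L} :
    (w.comap σ).ring.valuation x ≤ 1 ↔ w.ring.valuation (σ x) ≤ 1 := by
  rw [ValuationSubring.valuation_le_one_iff, ValuationSubring.valuation_le_one_iff]
  exact Place.mem_comap_ring

theorem Place.valuation_comap_lt_one {w : Place k L} {σ : L ≃ₐ[K] L} {x : L} :
    (w.comap σ).ring.valuation x < 1 ↔ w.ring.valuation (σ x) < 1 := by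
  by_cases hx : x = 0
  · simp [hx]
  rw [valuation_lt_one_iff_inv _ hx, valuation_lt_one_iff_inv _ (by simpa using hx),
    ← map_inv₀, Place.valuation_comap_le_one]

theorem Place.below_comap [Algebra.IsAlgebraic K L] {w : Place k L} {σ : L ≃ₐ[K] L} :
    (w.comap σ).below K = w.below K := by
  apply Place.ext'
  ext x
  change σ (algebraMap K L x) ∈ w.ring ↔ algebraMap K L x ∈ w.ring
  rw [σ.commutes]

end comap

section trace

variable [Finite k] [IsFunctionField k K] [IsFunctionField k L] [FiniteDimensional K L]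
  [IsGalois K L] {v : Place k K} {w : Place k L} (h : w.below K = v)

theorem Place.mem_zpowers_of_comap_eq (hw : w.IsUnramifiedOver K) {φ : L ≃ₐ[K] L}
    (hφ : IsArithFrobAt v.ring φ (Place.primeOf h)) {σ : L ≃ₐ[K] L} (hσ : w.comap σ = w) :
    σ ∈ Subgroup.zpowers φ := by
  have := v.perfectField
  have hcard := Ideal.card_stabilizer_eq_card_inertia_mul_finrank (G := L ≃ₐ[K] L)
    (IsLocalRing.maximalIdeal v.ring) (Place.primeOf h)
  rw [Place.card_inertia h, (Place.isUnramifiedOver_iff h).mp hw, one_mul,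
    Place.inertiaDeg_eq_orderOf h hw hφ] at hcard
  have hle : Subgroup.zpowers φ ≤ MulAction.stabilizer (L ≃ₐ[K] L) (Place.primeOf h) := by
    rw [Subgroup.zpowers_le]
    exact hφ.mem_stabilizer
  have heq : Subgroup.zpowers φ = MulAction.stabilizer (L ≃ₐ[K] L) (Place.primeOf h) := by
    apply Subgroup.eq_of_le_of_card_ge hle
    rw [hcard, Nat.card_zpowers]
  rw [heq, MulAction.mem_stabilizer_iff]
  ext b
  rw [Ideal.mem_pointwise_smul_iff_inv_smul_mem, Place.mem_primeOf, Place.mem_primeOf]
  have h1 : w.ring.valuation ((σ⁻¹ • b : integralClosure v.ring L) : L) < 1 ↔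
      w.ring.valuation (σ ((σ⁻¹ • b : integralClosure v.ring L) : L)) < 1 := by
    conv_lhs => rw [← hσ]
    exact Place.valuation_comap_lt_one
  rw [h1]
  have h2 : σ ((σ⁻¹ • b : integralClosure v.ring L) : L) = b := by
    rw [← Place.coe_smul, smul_inv_smul]
  rw [h2]

theorem Place.comap_eq_of_isArithFrobAt {φ : L ≃ₐ[K] L}
    (hφ : IsArithFrobAt v.ring φ (Place.primeOf h)) : w.comap φ = w := by
  symm
  apply Place.eq_of_le
  intro x hx
  rw [Place.mem_comap_ring]
  have h1 := Place.frob_of_isArithFrobAt h hφ x hx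
  have h2 : φ x = (φ x - x ^ Nat.card (IsLocalRing.ResidueField v.ring)) +
      x ^ Nat.card (IsLocalRing.ResidueField v.ring) := by ring
  rw [h2]
  exact add_mem ((w.ring.valuation_le_one_iff _).mp h1.le) (pow_mem hx _)

theorem exists_residue_trace_ne_zero {F : Type*} [Field F] [Finite F] {q f : ℕ} (hq : 1 < q)
    (hf : 0 < f) (hcard : Nat.card F = q ^ f) : ∃ β : F, ∑ i ∈ Finset.range f, β ^ q ^ i ≠ 0 := by
  classical
  by_contra! hall
  have : Fintype F := Fintype.ofFinite F
  set P : F[X] := ∑ i ∈ Finset.range f, Polynomial.X ^ q ^ i with hP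
  have hcoeff : P.coeff (q ^ (f - 1)) = 1 := by
    rw [hP, Polynomial.finsetSum_coeff, Finset.sum_eq_single (f - 1)]
    · simp
    · intro b _ hb
      rw [Polynomial.coeff_X_pow, if_neg]
      intro h1
      exact hb (Nat.pow_right_injective hq h1).symm
    · intro h1
      exact absurd (Finset.mem_range.mpr (by omega)) h1
  have hP0 : P ≠ 0 := by
    intro h0; rw [h0] at hcoeff; simp at hcoeff
  have hdeg : P.natDegree ≤ q ^ (f - 1) := by
    apply Polynomial.natDegree_sum_le_of_forall_le
    intro i hi
    rw [Polynomial.natDegree_X_pow]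
    exact Nat.pow_le_pow_right (by omega) (by rw [Finset.mem_range] at hi; omega)
  have h1 : Fintype.card F ≤ P.natDegree := by
    refine le_trans ?_ (Polynomial.card_roots' _)
    rw [← Finset.card_univ]
    apply Multiset.card_le_card
    rw [Multiset.le_iff_subset (Finset.nodup _)]
    intro y _
    rw [Polynomial.mem_roots hP0, Polynomial.IsRoot.def, hP, Polynomial.eval_finsetSum]
    simpa using hall y
  rw [← Nat.card_eq_fintype_card, hcard] at h1
  have h2 : q ^ f ≤ q ^ (f - 1) := h1.trans hdeg
  have h3 := (Nat.pow_le_pow_iff_right hq).mp h2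
  omega

/-- the places above the places of `T` -/
def placesAbove (L : Type*) [Field L] [Algebra k L] [Algebra K L] [IsScalarTower k K L]
    [Algebra.IsAlgebraic K L] (T : Set (Place k K)) : Set (Place k L) :=
  {w | w.below K ∈ T}

theorem mem_placesAbove {T : Set (Place k K)} {w : Place k L} :
    w ∈ placesAbove L T ↔ w.below K ∈ T := Iff.rfl

/-- traces of functions regular outside `T` -/
theorem trace_mem_ring {T : Set (Place k K)} {θ : L} (hθ : θ ∈ regularOutside (placesAbove L T)) :
    Algebra.trace K L θ ∈ regularOutside T := by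
  intro v hv
  obtain ⟨w, hw⟩ := exists_below_eq (L := L) v
  rw [← Place.mem_ring_of_below_eq hw, trace_eq_sum_automorphisms]
  apply sum_mem
  intro σ _
  rw [← Place.mem_comap_ring]
  apply hθ
  rw [mem_placesAbove, Place.below_comap, hw]
  exact hv

theorem exists_trace_not_lt_one (T : Set (Place k K)) (hT : T.Nonempty) (v : Place k K)
    (hv : v ∉ T) (hram : ∀ w : Place k L, w.below K = v → w.IsUnramifiedOver K) :
    ∃ θ ∈ regularOutside (placesAbove L T), ¬ v.ring.valuation (Algebra.trace K L θ) < 1 := by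
  classical
  obtain ⟨w, h⟩ := exists_below_eq (L := L) v
  have hfin : Finite (integralClosure v.ring L ⧸ Place.primeOf h) :=
    Finite.of_equiv _ (Place.quotEquiv h).symm.toEquiv
  obtain ⟨φ, hφ⟩ := IsArithFrobAt.exists_of_isInvariant v.ring (L ≃ₐ[K] L) (Place.primeOf h)
  set q := Nat.card (IsLocalRing.ResidueField v.ring) with hq
  have hq1 : 1 < q := Finite.one_lt_card
  have hcard : Nat.card (IsLocalRing.ResidueField w.ring) = q ^ orderOf φ := by
    rw [Place.card_residueField_eq_pow h, Place.inertiaDeg_eq_orderOf h (hram w h) hφ]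
  obtain ⟨β, hβ⟩ := exists_residue_trace_ne_zero hq1 (orderOf_pos φ) hcard
  obtain ⟨b, rfl⟩ := IsLocalRing.residue_surjective β
  have hcomap := Place.comap_eq_of_isArithFrobAt h hφ
  -- choose θ
  obtain ⟨t, ht⟩ := hT
  obtain ⟨u, hu⟩ := exists_below_eq (L := L) t
  set W : Finset (Place k L) := (finite_below (L := L) v).toFinset with hW
  have hWmem : ∀ w' : Place k L, w' ∈ W ↔ w'.below K = v := by
    intro w'; rw [hW, Set.Finite.mem_toFinset]; rfl
  obtain ⟨θ, hθ1, hθ2⟩ := strong_approximation (placesAbove L T) ⟨u, by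
    rw [mem_placesAbove, hu]; exact ht⟩ W (by
      intro w' hw' hT'
      rw [hWmem] at hw'
      rw [mem_placesAbove, hw'] at hT'
      exact hv hT') (fun w' => if w' = w then (b : L) else 0) 1
  have he1 : (WithZero.exp (-((1 : ℕ) : ℤ)) : ℤᵐ⁰) < 1 := by
    rw [← WithZero.exp_zero, WithZero.exp_lt_exp]; norm_num
  have hθw : w.ring.valuation (θ - b) < 1 := by
    have h1 := hθ1 w ((hWmem w).mpr h)
    rw [if_pos rfl] at h1
    exact (w.val_lt_one_iff _).mp (lt_of_le_of_lt h1 he1)
  have hθw' : ∀ w' : Place k L, w'.below K = v → w' ≠ w → w'.ring.valuation θ < 1 := by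
    intro w' h' hne
    have h1 := hθ1 w' ((hWmem w').mpr h')
    rw [if_neg hne, sub_zero] at h1
    exact (w'.val_lt_one_iff _).mp (lt_of_le_of_lt h1 he1)
  refine ⟨θ, ?_, ?_⟩
  · intro w' hw'
    by_cases hw'W : w' ∈ W
    · rw [hWmem] at hw'W
      by_cases hne : w' = w
      · subst hne
        have h1 : θ = (θ - b) + b := by ring
        rw [h1]
        exact add_mem ((w'.ring.valuation_le_one_iff _).mp hθw.le) b.2
      · exact (w'.ring.valuation_le_one_iff _).mp (hθw' w' hw'W hne).le
    · exact hθ2 w' hw' hw'W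
  · rw [← Place.valuation_lt_one_of_below h, trace_eq_sum_automorphisms]
    intro hlt
    apply hβ
    -- φ preserves the valuation ring and the maximal ideal
    have hφlt : ∀ x : L, w.ring.valuation x < 1 → w.ring.valuation (φ x) < 1 := by
      intro x hx
      rw [← hcomap, Place.valuation_comap_lt_one] at hx
      exact hx
    have hφmem : ∀ x : L, x ∈ w.ring → φ x ∈ w.ring := by
      intro x hx
      rw [← hcomap, Place.mem_comap_ring] at hx
      exact hx
    have hpow : ∀ i : ℕ, w.ring.valuation ((φ ^ i) θ - (b : L) ^ q ^ i) < 1 := by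
      intro i
      induction i with
      | zero => simpa using hθw
      | succ i ih =>
        have h1 : (φ ^ (i + 1)) θ - (b : L) ^ q ^ (i + 1) =
            φ ((φ ^ i) θ - (b : L) ^ q ^ i) +
              (φ ((b : L) ^ q ^ i) - ((b : L) ^ q ^ i) ^ q) := by
          rw [pow_succ' φ, AlgEquiv.mul_apply, map_sub, ← pow_mul, ← pow_succ]
          ring
        rw [h1]
        apply Valuation.map_add_lt
        · exact hφlt _ ih
        · exact Place.frob_of_isArithFrobAt h hφ _ (pow_mem b.2 _)
    have hnot : ∀ σ : L ≃ₐ[K] L, σ ∉ Subgroup.zpowers φ → w.ring.valuation (σ θ) < 1 := by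
      intro σ hσ
      rw [← Place.valuation_comap_lt_one]
      apply hθw'
      · rw [Place.below_comap, h]
      · intro heq
        exact hσ (Place.mem_zpowers_of_comap_eq h (hram w h) hφ heq)
    -- split the sum
    have hsplit : ∑ σ : L ≃ₐ[K] L, σ θ =
        ∑ i ∈ Finset.range (orderOf φ), (φ ^ i) θ +
        ∑ σ ∈ Finset.univ.filter (fun σ : L ≃ₐ[K] L => σ ∉ Subgroup.zpowers φ), σ θ := by
      rw [← Finset.sum_filter_add_sum_filter_not Finset.univ
        (fun σ : L ≃ₐ[K] L => σ ∈ Subgroup.zpowers φ)]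
      congr 1
      symm
      apply Finset.sum_bij (fun i _ => φ ^ i)
      · intro i _
        rw [Finset.mem_filter]
        exact ⟨Finset.mem_univ _, Subgroup.npow_mem_zpowers φ i⟩
      · intro i hi j hj hij
        rw [Finset.mem_range] at hi hj
        exact pow_injOn_Iio_orderOf hi hj hij
      · intro σ hσ
        rw [Finset.mem_filter, mem_zpowers_iff_mem_range_orderOf, Finset.mem_image] at hσ
        obtain ⟨i, hi, hi'⟩ := hσ.2
        exact ⟨i, hi, hi'⟩
      · intro i _; rfl
    rw [hsplit] at hlt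
    have h3 : w.ring.valuation (∑ i ∈ Finset.range (orderOf φ), (b : L) ^ q ^ i) < 1 := by
      have h4 : (∑ i ∈ Finset.range (orderOf φ), (b : L) ^ q ^ i) =
          (∑ i ∈ Finset.range (orderOf φ), (φ ^ i) θ +
            ∑ σ ∈ Finset.univ.filter (fun σ : L ≃ₐ[K] L => σ ∉ Subgroup.zpowers φ), σ θ) -
          (∑ σ ∈ Finset.univ.filter (fun σ : L ≃ₐ[K] L => σ ∉ Subgroup.zpowers φ), σ θ) -
          (∑ i ∈ Finset.range (orderOf φ), ((φ ^ i) θ - (b : L) ^ q ^ i)) := by
        rw [Finset.sum_sub_distrib]; ring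
      rw [h4]
      apply Valuation.map_sub_lt
      · apply Valuation.map_sub_lt _ hlt
        apply Valuation.map_sum_lt _ one_ne_zero
        intro σ hσ
        exact hnot σ (Finset.mem_filter.mp hσ).2
      · apply Valuation.map_sum_lt _ one_ne_zero
        intro i _
        exact hpow i
    have h5 : ((∑ i ∈ Finset.range (orderOf φ), b ^ q ^ i : w.ring) : L) =
        ∑ i ∈ Finset.range (orderOf φ), (b : L) ^ q ^ i := by
      push_cast; rfl
    rw [← h5, ← w.residue_eq_zero_iff] at h3
    rw [map_sum] at h3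
    simpa using h3

end trace

end Pool.Agent.helper90.Zp
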